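import Mathlib

/-!
# Four terms in progression of a shifted Pell sequence do not share their squarefree part
-/

set_option autoImplicit false

namespace H97E3

theorem Anal_ebound (P Y W : ℝ) (hP : 0 < P) (hP2 : P * 1000000 ≤ 1)
    (hY : 2 * Y * P = 1 + P ^ 2 + 432 * P) (hW : 0 ≤ W) (hYW : Y ^ 2 - W ^ 2 = 1) :
    400 * P ^ 2 < P - (Y - W) ∧ P - (Y - W) < 433 * P ^ 2 := by
  have hYpos : 0 < Y := by
    by_contra h
    have h' : Y ≤ 0 := not_lt.1 h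
    have h1 : 2 * Y * P ≤ 0 := by nlinarith
    nlinarith
  have hY1 : 1 ≤ Y := by nlinarith
  obtain ⟨e, he⟩ : ∃ e, e = Y - W := ⟨_, rfl⟩
  have hepos : 0 < e := by
    have h1 : e * (Y + W) = 1 := by rw [he]; linarith [hYW, sq Y, sq W]
    by_contra h
    have h' : e ≤ 0 := not_lt.1 h
    nlinarith
  have hele : e ≤ 1 := by
    have h1 : e * (Y + W) = 1 := by rw [he]; linarith [hYW, sq Y, sq W]
    nlinarith
  have he1 : e * (2 * Y - e) = 1 := by rw [he]; linarith [hYW, sq Y, sq W]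
  have key : e * (1 + P ^ 2 + 432 * P - P * e) = P := by
    have : e * (1 + P ^ 2 + 432 * P - P * e) = P * (e * (2 * Y - e)) := by rw [← hY]; ring
    rw [this, he1, mul_one]
  rw [← he]
  have hP1 : P ≤ 1 := by linarith
  have hPP : 0 < P ^ 2 := pow_pos hP 2
  constructor
  · by_contra h
    have h' : P - 400 * P ^ 2 ≤ e := by linarith [not_lt.1 h]
    have h1 : e * (1 + 431 * P) ≤ P := by
      have : e * (1 + 431 * P) ≤ e * (1 + P ^ 2 + 432 * P - P * e) := by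
        apply mul_le_mul_of_nonneg_left _ hepos.le
        nlinarith
      linarith
    have h2 : (P - 400 * P ^ 2) * (1 + 431 * P) ≤ e * (1 + 431 * P) := by
      apply mul_le_mul_of_nonneg_right h'
      linarith
    have h3 : P < (P - 400 * P ^ 2) * (1 + 431 * P) := by
      have e1 : (P - 400 * P ^ 2) * (1 + 431 * P)
        = P + P ^ 2 * (31 - 172400 * P) := by ring
      have e2 : 0 < 31 - 172400 * P := by linarith
      have : 0 < P ^ 2 * (31 - 172400 * P) := mul_pos hPP e2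
      linarith
    linarith
  · by_contra h
    have h' : e ≤ P - 433 * P ^ 2 := by linarith [not_lt.1 h]
    have h1 : P ≤ e * (1 + 433 * P) := by
      have : e * (1 + P ^ 2 + 432 * P - P * e) ≤ e * (1 + 433 * P) := by
        apply mul_le_mul_of_nonneg_left _ hepos.le
        have i1 : P ^ 2 ≤ P * 1 := by
          have : P ^ 2 = P * P := sq P
          rw [this]
          exact mul_le_mul_of_nonneg_left hP1 hP.le
        have i2 : 0 ≤ P * e := mul_nonneg hP.le hepos.le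
        linarith
      linarith
    have h2 : e * (1 + 433 * P) ≤ (P - 433 * P ^ 2) * (1 + 433 * P) := by
      apply mul_le_mul_of_nonneg_right h'
      linarith
    have h3 : (P - 433 * P ^ 2) * (1 + 433 * P) < P := by
      have e1 : (P - 433 * P ^ 2) * (1 + 433 * P) = P - 187489 * (P * P ^ 2) := by ring
      have : 0 < P * P ^ 2 := mul_pos hP hPP
      linarith
    linarith

theorem Anal_closed (P Q Y : ℝ) (hP : 0 < P) (hQ : Q * P = 1)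
    (hY : 2 * Y * P = 1 + P ^ 2 + 432 * P) : 2 * Y = Q + P + 432 := by
  have : (2 * Y - (Q + P + 432)) * P = 0 := by linear_combination hY - hQ
  rcases mul_eq_zero.1 this with h | h
  · linarith
  · exact absurd h hP.ne'

theorem Anal_LY_zero (p k h : ℝ) (hp : 0 < p) (hk : 0 < k) (hhk : h * k = 1)
    (Y0 Y1 Y2 Y3 σ : ℝ) (hσ : σ = h + k + 1)
    (hY0 : 2 * Y0 * p = 1 + p ^ 2 + 432 * p)
    (hY1 : 2 * Y1 * (p * k) = 1 + (p * k) ^ 2 + 432 * (p * k))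
    (hY2 : 2 * Y2 * (p * k ^ 2) = 1 + (p * k ^ 2) ^ 2 + 432 * (p * k ^ 2))
    (hY3 : 2 * Y3 * (p * k ^ 3) = 1 + (p * k ^ 3) ^ 2 + 432 * (p * k ^ 3)) :
    Y3 - σ * Y2 + σ * Y1 - Y0 = 0 := by
  obtain ⟨q, hq⟩ : ∃ q : ℝ, q * p = 1 := ⟨p⁻¹, inv_mul_cancel₀ hp.ne'⟩
  have eY0 : 2 * Y0 = q + p + 432 := Anal_closed p q Y0 hp hq hY0
  have eY1 : 2 * Y1 = q * h + p * k + 432 :=
    Anal_closed (p * k) (q * h) Y1 (by positivity) (by linear_combination (h * k) * hq + hhk) hY1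
  have eY2 : 2 * Y2 = q * h ^ 2 + p * k ^ 2 + 432 :=
    Anal_closed (p * k ^ 2) (q * h ^ 2) Y2 (by positivity)
      (by linear_combination (h * k) ^ 2 * hq + (h * k + 1) * hhk) hY2
  have eY3 : 2 * Y3 = q * h ^ 3 + p * k ^ 3 + 432 :=
    Anal_closed (p * k ^ 3) (q * h ^ 3) Y3 (by positivity)
      (by linear_combination (h * k) ^ 3 * hq + ((h * k) ^ 2 + h * k + 1) * hhk) hY3
  have h2 : 2 * (Y3 - σ * Y2 + σ * Y1 - Y0)
      = 2 * Y3 - σ * (2 * Y2) + σ * (2 * Y1) - 2 * Y0 := by ring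
  have h3 : 2 * (Y3 - σ * Y2 + σ * Y1 - Y0) = 0 := by
    rw [h2, eY0, eY1, eY2, eY3, hσ]
    linear_combination (- q * h + q + p - p * k) * hhk
  linarith

theorem Anal_LP_zero (p k h σ : ℝ) (hhk : h * k = 1) (hσ : σ = h + k + 1) :
    p * k ^ 3 - σ * (p * k ^ 2) + σ * (p * k) - p = 0 := by
  rw [hσ]
  linear_combination (p - p * k) * hhk

theorem Anal_size1 (p k h σ : ℝ) (hk : 0 < k)
    (hk2 : k * 10 ≤ 1) (hhk : h * k = 1) (hσ : σ = h + k + 1) :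
    σ * (p * k) ^ 2 ≤ p ^ 2 * (3 / 10) := by
  have : σ * (p * k) ^ 2 = p ^ 2 * (k + k ^ 3 + k ^ 2) := by
    rw [hσ]; linear_combination (p ^ 2 * k) * hhk
  rw [this]
  apply mul_le_mul_of_nonneg_left _ (sq_nonneg p)
  have i1 : k ≤ 1 := by linarith
  have i2 : k ^ 2 ≤ k := by
    calc k ^ 2 = k * k := by ring
      _ ≤ k * 1 := mul_le_mul_of_nonneg_left i1 hk.le
      _ = k := mul_one k
  have i3 : k ^ 3 ≤ k := by
    calc k ^ 3 = k ^ 2 * k := by ring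
      _ ≤ k ^ 2 * 1 := mul_le_mul_of_nonneg_left i1 (sq_nonneg k)
      _ = k ^ 2 := mul_one _
      _ ≤ k := i2
  linarith

/-- purely linear end of the argument -/
theorem Anal_finish (P ρ n d0 d1 d2 d3 σ x1 x2 x3 : ℝ) (hP : P * 1000000 ≤ 1) (hP0 : 0 < P)
    (hρ : 1 ≤ ρ) (hσ0 : 0 < σ) (hn : n ≤ 0 ∨ 1 ≤ n)
    (hmain : ρ * n = d0 - d3 + σ * d2 - σ * d1)
    (a0 : 400 * P < d0) (b0 : d0 < 433 * P)
    (a1 : 0 ≤ d1) (b1 : d1 < 433 * x1)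
    (a2 : 0 ≤ d2) (b2 : d2 < 433 * x2)
    (a3 : 0 ≤ d3) (b3 : d3 < 433 * x3)
    (s1 : σ * x1 ≤ P * (3 / 10)) (s2 : σ * x2 ≤ P) (s3 : x3 ≤ P * (1 / 10)) : False := by
  have t1 : σ * d1 ≤ 433 * (P * (3 / 10)) := by
    calc σ * d1 ≤ σ * (433 * x1) := mul_le_mul_of_nonneg_left b1.le hσ0.le
      _ = 433 * (σ * x1) := by ring
      _ ≤ 433 * (P * (3 / 10)) := by linarith
  have t1' : 0 ≤ σ * d1 := mul_nonneg hσ0.le a1
  have t2 : σ * d2 ≤ 433 * P := by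
    calc σ * d2 ≤ σ * (433 * x2) := mul_le_mul_of_nonneg_left b2.le hσ0.le
      _ = 433 * (σ * x2) := by ring
      _ ≤ 433 * P := by linarith
  have t2' : 0 ≤ σ * d2 := mul_nonneg hσ0.le a2
  have hlow : 0 < ρ * n := by
    rw [hmain]
    linarith
  have hup : ρ * n < 1 := by
    rw [hmain]
    linarith
  rcases hn with hn | hn
  · have : ρ * n ≤ 0 := mul_nonpos_of_nonneg_of_nonpos (by linarith) hn
    linarith
  · have : 1 * 1 ≤ ρ * n := mul_le_mul hρ hn zero_le_one (by linarith)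
    linarith

/-- the analytic heart: `p = 1/q`, `k = 1/h` -/
theorem no_ap (p k h ρ : ℝ) (hp : 0 < p) (hp2 : p * 1000000 ≤ 1) (hk : 0 < k)
    (hk2 : k * 10 ≤ 1) (hhk : h * k = 1) (hρ : 1 ≤ ρ)
    (Y0 Y1 Y2 Y3 w0 w1 w2 w3 : ℝ) (σ n : ℤ) (hσ : (σ : ℝ) = h + k + 1)
    (hY0 : 2 * Y0 * p = 1 + p ^ 2 + 432 * p)
    (hY1 : 2 * Y1 * (p * k) = 1 + (p * k) ^ 2 + 432 * (p * k))
    (hY2 : 2 * Y2 * (p * k ^ 2) = 1 + (p * k ^ 2) ^ 2 + 432 * (p * k ^ 2))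
    (hY3 : 2 * Y3 * (p * k ^ 3) = 1 + (p * k ^ 3) ^ 2 + 432 * (p * k ^ 3))
    (hw0 : 0 ≤ w0) (hw1 : 0 ≤ w1) (hw2 : 0 ≤ w2) (hw3 : 0 ≤ w3)
    (h0 : Y0 ^ 2 - (ρ * w0) ^ 2 = 1) (h1 : Y1 ^ 2 - (ρ * w1) ^ 2 = 1)
    (h2 : Y2 ^ 2 - (ρ * w2) ^ 2 = 1) (h3 : Y3 ^ 2 - (ρ * w3) ^ 2 = 1)
    (hn : (n : ℝ) = w3 - σ * w2 + σ * w1 - w0) : False := by
  have hρ0 : 0 ≤ ρ := le_trans zero_le_one hρ
  have hk1 : k ≤ 1 := by linarith
  have hk2' : k ^ 2 ≤ 1 := pow_le_one₀ hk.le hk1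
  have hk3' : k ^ 3 ≤ 1 := pow_le_one₀ hk.le hk1
  have hpk : 0 < p * k := mul_pos hp hk
  have hpk2 : 0 < p * k ^ 2 := mul_pos hp (pow_pos hk 2)
  have hpk3 : 0 < p * k ^ 3 := mul_pos hp (pow_pos hk 3)
  have hq1 : p * k ≤ p * 1 := mul_le_mul_of_nonneg_left hk1 hp.le
  have hq2 : p * k ^ 2 ≤ p * 1 := mul_le_mul_of_nonneg_left hk2' hp.le
  have hq3 : p * k ^ 3 ≤ p * 1 := mul_le_mul_of_nonneg_left hk3' hp.le
  obtain ⟨a0, b0⟩ := Anal_ebound p Y0 (ρ * w0) hp hp2 hY0 (mul_nonneg hρ0 hw0) h0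
  obtain ⟨a1, b1⟩ := Anal_ebound (p * k) Y1 (ρ * w1) hpk (by linarith) hY1 (mul_nonneg hρ0 hw1) h1
  obtain ⟨a2, b2⟩ := Anal_ebound (p * k ^ 2) Y2 (ρ * w2) hpk2 (by linarith) hY2
    (mul_nonneg hρ0 hw2) h2
  obtain ⟨a3, b3⟩ := Anal_ebound (p * k ^ 3) Y3 (ρ * w3) hpk3 (by linarith) hY3
    (mul_nonneg hρ0 hw3) h3
  have hLY := Anal_LY_zero p k h hp hk hhk Y0 Y1 Y2 Y3 σ hσ hY0 hY1 hY2 hY3
  have hLP := Anal_LP_zero p k h σ hhk hσ
  have hh : 0 < h := by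
    by_contra hc
    have h1 : h * k ≤ 0 := mul_nonpos_of_nonpos_of_nonneg (not_lt.1 hc) hk.le
    linarith
  have s1 := Anal_size1 p k h σ hk hk2 hhk hσ
  have hσ0 : (0 : ℝ) < σ := by rw [hσ]; linarith
  have s2 : (σ : ℝ) * (p * k ^ 2) ^ 2 ≤ p ^ 2 := by
    have : (σ : ℝ) * (p * k ^ 2) ^ 2 = ((σ : ℝ) * (p * k) ^ 2) * k ^ 2 := by ring
    rw [this]
    have i3 : 0 ≤ (σ : ℝ) * (p * k) ^ 2 := mul_nonneg hσ0.le (sq_nonneg _)
    have hpp : 0 ≤ p ^ 2 := sq_nonneg p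
    calc ((σ : ℝ) * (p * k) ^ 2) * k ^ 2 ≤ ((σ : ℝ) * (p * k) ^ 2) * 1 :=
          mul_le_mul_of_nonneg_left hk2' i3
      _ ≤ p ^ 2 := by linarith
  have s3 : (p * k ^ 3) ^ 2 ≤ p ^ 2 * (1 / 10) := by
    have : (p * k ^ 3) ^ 2 = p ^ 2 * (k * k ^ 5) := by ring
    rw [this]
    apply mul_le_mul_of_nonneg_left _ (sq_nonneg p)
    have i5 : k ^ 5 ≤ 1 := pow_le_one₀ hk.le hk1
    have i6 : k * k ^ 5 ≤ k * 1 := mul_le_mul_of_nonneg_left i5 hk.le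
    linarith
  have hP : p ^ 2 * 1000000 ≤ 1 := by
    have : p ^ 2 * 1000000 = p * (p * 1000000) := by ring
    rw [this]
    have : p * (p * 1000000) ≤ p * 1 := mul_le_mul_of_nonneg_left hp2 hp.le
    linarith
  have hn' : (-(n : ℝ)) ≤ 0 ∨ (1 : ℝ) ≤ -(n : ℝ) := by
    rcases le_or_gt 0 n with h | h
    · left
      have : (0 : ℝ) ≤ n := by exact_mod_cast h
      linarith
    · right
      have h2 : n ≤ -1 := by omega
      have : (n : ℝ) ≤ -1 := by exact_mod_cast h2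
      linarith
  refine Anal_finish (p ^ 2) ρ (-n) (p - (Y0 - ρ * w0)) (p * k - (Y1 - ρ * w1))
    (p * k ^ 2 - (Y2 - ρ * w2)) (p * k ^ 3 - (Y3 - ρ * w3)) σ ((p * k) ^ 2) ((p * k ^ 2) ^ 2) ((p * k ^ 3) ^ 2) hP
    (pow_pos hp 2) hρ hσ0 hn' ?_ a0 b0 ?_ b1 ?_ b2 ?_ b3 s1 s2 s3
  · rw [hn]
    linear_combination hLP - hLY
  · exact le_trans (by positivity) a1.le
  · exact le_trans (by positivity) a2.le
  · exact le_trans (by positivity) a3.le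

end H97E3
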