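import Mathlib

/-!
# The data to be found in the fields
-/

set_option autoImplicit false

namespace H97E3

open NumberField

/-- what the construction of the fields delivers -/
def Data (F : Type) [Field F] [NumberField F] : Prop :=
  ∃ k : 𝓞 F, IsUnit (4 * k ^ 2 - 4 * k - 107) ∧
    (∀ τ : F →+* ℝ, 0 < 4 * (τ k) ^ 2 - 4 * τ k - 107) ∧
    (∃ χ : 𝓞 F →+* ZMod 31, χ k = 7) ∧
    (∃ φ : 𝓞 F →+* ZMod 47, φ k = 7) ∧ ∃ ψ : 𝓞 F →+* ZMod 47, ψ k = 25

end H97E3
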