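import Mathlib
import Pool.Agent.H97.E3.Data

/-!
# The two quadratic polynomials and the polynomials `fp`
-/

set_option autoImplicit false

namespace H97E3

open Polynomial

/-- linear coefficient of the first quadratic: `1 - y_8` -/
def s1 : ℤ := -68345576714457849774942519
/-- constant coefficient of the first quadratic: `-(x_8 + 2 y_8 + 107) / 4` -/
def m1 : ℤ := -389306822383341046815672887
/-- linear coefficient of the second quadratic -/
def s2 : ℤ := -64
/-- constant coefficient of the second quadratic -/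
def m2 : ℤ := -397

theorem n1 : (4 * m1 - 2 * s1 + 109) ^ 2 - 432 * (1 - s1) ^ 2 = 1 := by
  rw [m1, s1]; norm_num

theorem n2 : (4 * m2 - 2 * s2 + 109) ^ 2 - 432 * (1 - s2) ^ 2 = 1 := by
  rw [m2, s2]; norm_num

theorem neg1 : 4 * m1 - 2 * s1 + 109 < 0 := by
  rw [m1, s1]; norm_num

theorem neg2 : 4 * m2 - 2 * s2 + 109 < 0 := by
  rw [m2, s2]; norm_num

theorem s1_31 : (s1 : ZMod 31) = 1 := by decide +kernel
theorem m1_31 : (m1 : ZMod 31) = 20 := by decide +kernel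
theorem s2_31 : (s2 : ZMod 31) = 29 := by decide +kernel
theorem m2_31 : (m2 : ZMod 31) = 6 := by decide +kernel

theorem s1_47 : (s1 : ZMod 47) = 32 := by decide +kernel
theorem m1_47 : (m1 : ZMod 47) = 34 := by decide +kernel
theorem s2_47 : (s2 : ZMod 47) = 30 := by decide +kernel
theorem m2_47 : (m2 : ZMod 47) = 26 := by decide +kernel

theorem s1_7 : (s1 : ZMod 7) = ((5 : ℤ) : ZMod 7) + ((3 : ℤ) : ZMod 7) := by
  decide +kernel
theorem m1_7 : (m1 : ZMod 7) = ((5 : ℤ) : ZMod 7) * ((3 : ℤ) : ZMod 7) := by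
  decide +kernel
theorem s2_7 : (s2 : ZMod 7) = ((3 : ℤ) : ZMod 7) + ((3 : ℤ) : ZMod 7) := by
  decide +kernel
theorem m2_7 : (m2 : ZMod 7) = ((3 : ℤ) : ZMod 7) * ((3 : ℤ) : ZMod 7) := by
  decide +kernel

/-- the quadratic polynomial `X² - s X + m` -/
noncomputable def G (s m : ℤ) : ℤ[X] := X ^ 2 - C s * X + C m

theorem G_monic (s m : ℤ) : (G s m).Monic := by
  have : G s m = X ^ 2 + (C (-s) * X + C m) := by
    rw [G, C_neg]; ring
  rw [this]
  apply monic_X_pow_add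
  exact lt_of_le_of_lt degree_linear_le (by norm_num)

theorem G_natDegree (s m : ℤ) : (G s m).natDegree = 2 := by
  have : G s m = C 1 * X ^ 2 + C (-s) * X + C m := by
    rw [G, C_neg, C_1]; ring
  rw [this]
  exact natDegree_quadratic one_ne_zero

theorem G_eval (s m b : ℤ) : (G s m).eval b = b ^ 2 - s * b + m := by
  simp [G]

theorem G_aeval {R : Type} [CommRing R] (s m : ℤ) (b : R) :
    aeval b (G s m) = b ^ 2 - (s : R) * b + (m : R) := by
  simp [G]

/-- the polynomial `4 X² - 4 X - 107` -/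
noncomputable def qp : ℤ[X] := C 4 * X ^ 2 - C 4 * X - C 107

theorem qp_eval (b : ℤ) : qp.eval b = 4 * b ^ 2 - 4 * b - 107 := by
  simp [qp]

theorem qp_aeval {R : Type} [CommRing R] (b : R) :
    aeval b qp = 4 * b ^ 2 - 4 * b - 107 := by
  rw [qp, map_sub, map_sub, map_mul, map_mul, map_pow, aeval_X, aeval_C, aeval_C, eq_intCast,
    eq_intCast]
  push_cast
  rfl

theorem qp_natDegree : qp.natDegree ≤ 2 := by
  have : qp = C 4 * X ^ 2 + C (-4) * X + C (-107) := by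
    rw [qp, C_neg, C_neg]; ring
  rw [this]
  exact natDegree_quadratic_le

/-- the polynomials `G₁ G₂^l + 31 · 47 (4 X² - 4 X - 107) E` -/
noncomputable def fp (l : ℕ) (E : ℤ[X]) : ℤ[X] :=
  G s1 m1 * G s2 m2 ^ l + C 1457 * qp * E

theorem fp_eval (l : ℕ) (E : ℤ[X]) (b : ℤ) : (fp l E).eval b =
    (b ^ 2 - s1 * b + m1) * (b ^ 2 - s2 * b + m2) ^ l
      + 1457 * (4 * b ^ 2 - 4 * b - 107) * E.eval b := by
  rw [fp, eval_add, eval_mul, eval_mul, eval_mul, eval_pow, G_eval, G_eval, qp_eval, eval_C]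

theorem fp_aeval {R : Type} [CommRing R] (l : ℕ) (E : ℤ[X]) (b : R) : aeval b (fp l E) =
    (b ^ 2 - (s1 : R) * b + m1) * (b ^ 2 - (s2 : R) * b + m2) ^ l
      + 1457 * (4 * b ^ 2 - 4 * b - 107) * aeval b E := by
  rw [fp, map_add, map_mul, map_mul, map_mul, map_pow, G_aeval, G_aeval, qp_aeval, aeval_C,
    eq_intCast]
  push_cast
  rfl

theorem base_monic (l : ℕ) : (G s1 m1 * G s2 m2 ^ l).Monic :=
  (G_monic _ _).mul ((G_monic _ _).pow l)

theorem base_natDegree (l : ℕ) : (G s1 m1 * G s2 m2 ^ l).natDegree = 2 * l + 2 := by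
  rw [(G_monic _ _).natDegree_mul ((G_monic _ _).pow l), (G_monic _ _).natDegree_pow,
    G_natDegree, G_natDegree]
  ring

theorem pert_degree (l : ℕ) (hl : 1 ≤ l) (E : ℤ[X]) (hE : E.natDegree ≤ 2 * l - 1) :
    (C 1457 * qp * E : ℤ[X]).degree < ((2 * l + 2 : ℕ) : WithBot ℕ) := by
  have h1 : (C 1457 * qp * E : ℤ[X]).natDegree ≤ 2 * l + 1 := by
    calc (C 1457 * qp * E : ℤ[X]).natDegree
        ≤ (C 1457 * qp : ℤ[X]).natDegree + E.natDegree := natDegree_mul_le
      _ ≤ 2 + (2 * l - 1) :=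
          Nat.add_le_add ((natDegree_C_mul_le _ _).trans qp_natDegree) hE
      _ = 2 * l + 1 := by omega
  calc (C 1457 * qp * E : ℤ[X]).degree
      ≤ ((2 * l + 1 : ℕ) : WithBot ℕ) := degree_le_of_natDegree_le h1
    _ < ((2 * l + 2 : ℕ) : WithBot ℕ) := by exact_mod_cast Nat.lt_succ_self _

theorem fp_monic (l : ℕ) (hl : 1 ≤ l) (E : ℤ[X]) (hE : E.natDegree ≤ 2 * l - 1) :
    (fp l E).Monic := by
  rw [fp]
  apply (base_monic l).add_of_left
  rw [degree_eq_natDegree (base_monic l).ne_zero, base_natDegree]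
  exact pert_degree l hl E hE

theorem fp_natDegree (l : ℕ) (hl : 1 ≤ l) (E : ℤ[X]) (hE : E.natDegree ≤ 2 * l - 1) :
    (fp l E).natDegree = 2 * l + 2 := by
  rw [fp, natDegree_add_eq_left_of_degree_lt, base_natDegree]
  rw [degree_eq_natDegree (base_monic l).ne_zero, base_natDegree]
  exact pert_degree l hl E hE

/-- the polynomial `∏ (X - 100 (i - δ) - 50)` over `i < 2 l - 1`, where `δ` is the parity of `l` -/
noncomputable def Rl (l : ℕ) : ℤ[X] :=
  ∏ i ∈ Finset.range (2 * l - 1), (X - C (100 * ((i : ℤ) - ((l % 2 : ℕ) : ℤ)) + 50))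

theorem Rl_aeval (l : ℕ) (t : ℝ) :
    aeval t (Rl l) = ∏ i ∈ Finset.range (2 * l - 1),
      (t - (100 * ((i : ℝ) - ((l % 2 : ℕ) : ℝ)) + 50)) := by
  rw [Rl, map_prod]
  apply Finset.prod_congr rfl
  intro i _
  rw [map_sub, aeval_X, aeval_C, eq_intCast]
  push_cast
  rfl

theorem Rl_natDegree (l : ℕ) : (Rl l).natDegree = 2 * l - 1 := by
  rw [Rl, natDegree_prod_of_monic _ _ (fun i _ => monic_X_sub_C _),
    Finset.sum_congr rfl (fun i _ => natDegree_X_sub_C _)]
  simp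

/-- the polynomial `F0` -/
noncomputable def Flin (t0 t1 : ℤ) : ℤ[X] := C (1 + 7 * t0) + C (7 * t1) * X

theorem Flin_natDegree (l : ℕ) (hl : 1 ≤ l) (t0 t1 : ℤ) : (Flin t0 t1).natDegree ≤ 2 * l - 1 := by
  have : (Flin t0 t1).natDegree ≤ 1 := by
    rw [Flin, add_comm]
    exact natDegree_linear_le
  omega

theorem natDegree_E (l : ℕ) (F0 : ℤ[X]) (hF0 : F0.natDegree ≤ 2 * l - 1) (c : ℤ) :
    (C 7 * (F0 - C c * Rl l) : ℤ[X]).natDegree ≤ 2 * l - 1 := by
  calc (C 7 * (F0 - C c * Rl l) : ℤ[X]).natDegree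
      ≤ (F0 - C c * Rl l : ℤ[X]).natDegree := natDegree_C_mul_le _ _
    _ ≤ max F0.natDegree (C c * Rl l : ℤ[X]).natDegree := natDegree_sub_le _ _
    _ ≤ 2 * l - 1 := by
        apply max_le hF0
        calc (C c * Rl l : ℤ[X]).natDegree ≤ (Rl l).natDegree := natDegree_C_mul_le _ _
          _ = 2 * l - 1 := Rl_natDegree _

end H97E3
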