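import Mathlib
import Pool.Agent.H97.E3.Consts

/-!
# Arithmetic of the polynomials `fp`
-/

set_option autoImplicit false

namespace H97E3

open Polynomial

theorem coprime_G {R : Type} [CommRing R] (s m : ℤ)
    (hN : (4 * m - 2 * s + 109) ^ 2 - 432 * (1 - s) ^ 2 = 1) (b : R) :
    IsCoprime (b ^ 2 - (s : R) * b + m) (4 * b ^ 2 - 4 * b - 107) := by
  have hN' : (4 * (m : R) - 2 * (s : R) + 109) ^ 2 - 432 * (1 - (s : R)) ^ 2 = 1 := by
    exact_mod_cast congrArg (Int.cast : ℤ → R) hN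
  refine ⟨4 * ((4 * (m : R) - 2 * (s : R) + 109) - (2 - 2 * (s : R)) * (2 * b - 1)),
    (2 - 2 * (s : R)) ^ 2 - (4 * (m : R) - 2 * (s : R) + 109) + (2 - 2 * (s : R)) * (2 * b - 1), ?_⟩
  linear_combination hN'

theorem fp_unit {R : Type} [CommRing R] (l : ℕ) (E : ℤ[X]) (b : R)
    (h : aeval b (fp l E) = 0) : IsUnit (4 * b ^ 2 - 4 * b - 107) := by
  rw [fp_aeval] at h
  have h1 : IsCoprime ((b ^ 2 - (s1 : R) * b + m1) * (b ^ 2 - (s2 : R) * b + m2) ^ l)
      (4 * b ^ 2 - 4 * b - 107) :=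
    (coprime_G s1 m1 n1 b).mul_left ((coprime_G s2 m2 n2 b).pow_left)
  apply h1.isUnit_of_dvd' _ (dvd_refl _)
  refine ⟨- (1457 * aeval b E), ?_⟩
  linear_combination h

theorem fp_no_root (l : ℕ) (E : ℤ[X]) (b : ℤ) : (fp l E).eval b ≠ 0 := by
  intro h
  have h1 : aeval b (fp l E) = 0 := by
    rw [coe_aeval_eq_eval]; exact h
  have h2 := fp_unit l E b h1
  rcases Int.isUnit_iff.1 h2 with h3 | h3
  · have h5 : b < 6 := by nlinarith
    have h6 : -5 < b := by nlinarith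
    interval_cases b <;> omega
  · have h4 : 4 * (b ^ 2 - b) = 106 := by linarith
    omega

end H97E3
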