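import Mathlib
import Pool.Agent.H97.E3.Consts

/-!
# The polynomials `fp` modulo 7, 31 and 47
-/

set_option autoImplicit false

namespace H97E3

open Polynomial

theorem ArithB_map_G (p : ℕ) (s m : ℤ) : (G s m).map (Int.castRingHom (ZMod p))
    = X ^ 2 - C (s : ZMod p) * X + C (m : ZMod p) := by
  simp [G]

theorem ArithB_dvd_of_cast {p : ℕ} {a : ℤ} (h : (a : ZMod p) = 0) : (p : ℤ) ∣ a :=
  (ZMod.intCast_zmod_eq_zero_iff_dvd a p).1 h

theorem ArithB_cast_of_dvd {p : ℕ} {a : ℤ} (h : (p : ℤ) ∣ a) : (a : ZMod p) = 0 :=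
  (ZMod.intCast_zmod_eq_zero_iff_dvd a p).2 h

theorem fp_mod_seven (l : ℕ) (F : ℤ[X]) :
    (fp l (C 7 * F)).map (Int.castRingHom (ZMod 7))
      = (X - C ((5 : ℤ) : ZMod 7)) * (X - C ((3 : ℤ) : ZMod 7)) ^ (2 * l + 1) := by
  have e7 : (C (7 : ℤ) : ℤ[X]).map (Int.castRingHom (ZMod 7)) = 0 := by
    rw [map_C]
    have : Int.castRingHom (ZMod 7) 7 = 0 := by decide
    rw [this, C_0]
  have e8 : (C 7 * F : ℤ[X]).map (Int.castRingHom (ZMod 7)) = 0 := by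
    rw [Polynomial.map_mul, e7, zero_mul]
  rw [fp, Polynomial.map_add, Polynomial.map_mul, Polynomial.map_mul,
    Polynomial.map_mul, Polynomial.map_pow, ArithB_map_G, ArithB_map_G, e8, mul_zero,
    add_zero, s1_7, m1_7, s2_7, m2_7]
  have h1 : (X ^ 2 - C (((5 : ℤ) : ZMod 7) + ((3 : ℤ) : ZMod 7)) * X
      + C (((5 : ℤ) : ZMod 7) * ((3 : ℤ) : ZMod 7)) : (ZMod 7)[X])
      = (X - C ((5 : ℤ) : ZMod 7)) * (X - C ((3 : ℤ) : ZMod 7)) := by
    rw [C_add, C_mul]; ring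
  have h2 : (X ^ 2 - C (((3 : ℤ) : ZMod 7) + ((3 : ℤ) : ZMod 7)) * X
      + C (((3 : ℤ) : ZMod 7) * ((3 : ℤ) : ZMod 7)) : (ZMod 7)[X])
      = (X - C ((3 : ℤ) : ZMod 7)) ^ 2 := by
    rw [C_add, C_mul]; ring
  rw [h1, h2, ← pow_mul]
  ring

theorem fp_mod_seven2 (l : ℕ) (hl : 1 ≤ l) (F : ℤ[X]) (hF : ¬ ((7 : ℕ) : ℤ) ∣ F.eval 3) :
    ¬ (((7 : ℕ) : ℤ) ^ 2 ∣ (fp l (C 7 * F)).eval 3) := by
  intro h
  rw [fp_eval, eval_mul, eval_C] at h
  have d1 : ((7 : ℕ) : ℤ) ∣ (3 : ℤ) ^ 2 - s1 * 3 + m1 := by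
    apply ArithB_dvd_of_cast
    push_cast
    rw [s1_7, m1_7]
    decide
  have d2 : ((7 : ℕ) : ℤ) ∣ (3 : ℤ) ^ 2 - s2 * 3 + m2 := by
    apply ArithB_dvd_of_cast
    push_cast
    rw [s2_7, m2_7]
    decide
  have d3 : ((7 : ℕ) : ℤ) ^ 2 ∣ ((3 : ℤ) ^ 2 - s1 * 3 + m1)
      * ((3 : ℤ) ^ 2 - s2 * 3 + m2) ^ l := by
    rw [sq]
    exact mul_dvd_mul d1 (dvd_pow d2 (by omega))
  have d4 := (dvd_add_right d3).1 h
  have d5 : ((7 : ℕ) : ℤ) ∣ 1457 * (4 * 3 ^ 2 - 4 * 3 - 107) * F.eval 3 := by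
    have e : (1457 : ℤ) * (4 * 3 ^ 2 - 4 * 3 - 107) * (7 * F.eval 3)
        = ((7 : ℕ) : ℤ) * (1457 * (4 * 3 ^ 2 - 4 * 3 - 107) * F.eval 3) := by
      push_cast; ring
    rw [e, sq] at d4
    exact Int.dvd_of_mul_dvd_mul_left (by norm_num) d4
  have hp : Prime ((7 : ℕ) : ℤ) := Nat.prime_iff_prime_int.1 (by norm_num)
  rcases hp.dvd_or_dvd d5 with d6 | d6
  · norm_num at d6
  · exact hF d6

/-- roots modulo a prime factor `p` of `1457` -/
theorem ArithB_root (p : ℕ) (hp : Nat.Prime p) (h1457 : ((1457 : ℤ) : ZMod p) = 0)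
    (l : ℕ) (E : ℤ[X]) (b : ℤ)
    (hb : ((b ^ 2 - s1 * b + m1 : ℤ) : ZMod p) = 0)
    (hb' : ((2 * b - s1 : ℤ) : ZMod p) ≠ 0)
    (hb2 : ((b ^ 2 - s2 * b + m2 : ℤ) : ZMod p) ≠ 0) :
    (p : ℤ) ∣ (fp l E).eval b ∧ ¬ (p : ℤ) ∣ (fp l E).derivative.eval b := by
  have : Fact (Nat.Prime p) := ⟨hp⟩
  constructor
  · apply ArithB_dvd_of_cast
    rw [fp_eval]
    have e : ((((b ^ 2 - s1 * b + m1) * (b ^ 2 - s2 * b + m2) ^ l
        + 1457 * (4 * b ^ 2 - 4 * b - 107) * E.eval b : ℤ)) : ZMod p)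
        = ((b ^ 2 - s1 * b + m1 : ℤ) : ZMod p) * (((b ^ 2 - s2 * b + m2 : ℤ) : ZMod p)) ^ l
        + ((1457 : ℤ) : ZMod p) * (((4 * b ^ 2 - 4 * b - 107 : ℤ) : ZMod p)
          * ((E.eval b : ℤ) : ZMod p)) := by
      push_cast; ring
    rw [e, hb, h1457, zero_mul, zero_mul, add_zero]
  · intro hd
    have h0 := ArithB_cast_of_dvd hd
    have e : (fp l E).derivative = (G s1 m1).derivative * G s2 m2 ^ l
        + G s1 m1 * (G s2 m2 ^ l).derivative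
        + C 1457 * ((qp * E).derivative) := by
      rw [fp, derivative_add, derivative_mul]
      have : (C 1457 * qp * E : ℤ[X]) = C 1457 * (qp * E) := by ring
      rw [this, derivative_C_mul]
    rw [e, eval_add, eval_add, eval_mul, eval_mul, eval_mul, eval_pow, G_eval, G_eval,
      eval_C] at h0
    have hder : (G s1 m1).derivative.eval b = 2 * b - s1 := by
      simp [G]
    rw [hder] at h0
    push_cast at h0 hb hb' hb2 h1457
    rw [h1457, zero_mul, add_zero, hb, zero_mul, add_zero] at h0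
    rcases mul_eq_zero.1 h0 with h1 | h1
    · exact hb' h1
    · exact (pow_ne_zero l hb2) h1

theorem fp_root31 (l : ℕ) (E : ℤ[X]) :
    ((31 : ℕ) : ℤ) ∣ (fp l E).eval 7 ∧ ¬ ((31 : ℕ) : ℤ) ∣ (fp l E).derivative.eval 7 := by
  apply ArithB_root 31 (by norm_num) (by decide)
  · push_cast
    rw [s1_31, m1_31]
    decide
  · push_cast
    rw [s1_31]
    decide
  · push_cast
    rw [s2_31, m2_31]
    decide

theorem fp_root47 (l : ℕ) (E : ℤ[X]) (b : ℤ) (hb : b = 7 ∨ b = 25) :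
    ((47 : ℕ) : ℤ) ∣ (fp l E).eval b ∧ ¬ ((47 : ℕ) : ℤ) ∣ (fp l E).derivative.eval b := by
  rcases hb with rfl | rfl
  · apply ArithB_root 47 (by norm_num) (by decide)
    · push_cast
      rw [s1_47, m1_47]
      decide
    · push_cast
      rw [s1_47]
      decide
    · push_cast
      rw [s2_47, m2_47]
      decide
  · apply ArithB_root 47 (by norm_num) (by decide)
    · push_cast
      rw [s1_47, m1_47]
      decide
    · push_cast
      rw [s1_47]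
      decide
    · push_cast
      rw [s2_47, m2_47]
      decide

end H97E3
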