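import Mathlib
import Pool.Agent.H97.E3.Consts

/-!
# Conditions at an auxiliary prime
-/

set_option autoImplicit false

namespace H97E3

open Polynomial

/-- the final polynomial -/
noncomputable def ff (l : ℕ) (q : ℕ) (t0 t1 N : ℤ) : ℤ[X] :=
  fp l (C 7 * (Flin t0 t1 - C (7 * (q : ℤ) ^ 2 * N) * Rl l))

theorem Coef_coprime (q : ℕ) (hq : q.Prime) (hq2 : 1457 < q) :
    IsCoprime ((107 : ℤ) * 1457 * 49) ((q : ℤ) ^ 2) := by
  have small : ∀ a : ℕ, 0 < a → a < q → IsCoprime (a : ℤ) ((q : ℤ) ^ 2) := by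
    intro a ha haq
    apply IsCoprime.pow_right
    rw [Nat.isCoprime_iff_coprime]
    exact (Nat.coprime_of_lt_prime ha.ne' haq hq).symm
  have h1 := small 107 (by norm_num) (by omega)
  have h2 := small 1457 (by norm_num) (by omega)
  have h3 := small 49 (by norm_num) (by omega)
  have e : ((107 : ℤ) * 1457 * 49) = ((107 : ℕ) : ℤ) * ((1457 : ℕ) : ℤ) * ((49 : ℕ) : ℤ) := by
    push_cast
  rw [e]
  exact (h1.mul_left h2).mul_left h3

theorem Coef_fp_der (l : ℕ) (E : ℤ[X]) : (fp l E).derivative.eval 0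
    = (G s1 m1 * G s2 m2 ^ l).derivative.eval 0
      + 1457 * (-4 * E.eval 0 - 107 * E.derivative.eval 0) := by
  have h : (C 1457 * qp * E : ℤ[X]) = C 1457 * (qp * E) := by ring
  have e2 : (qp : ℤ[X]).derivative.eval 0 = -4 := by
    rw [qp]; simp
  have e3 : (qp : ℤ[X]).eval 0 = -107 := by
    rw [qp_eval]; norm_num
  have e4 : (qp * E : ℤ[X]).derivative.eval 0 = -4 * E.eval 0 - 107 * E.derivative.eval 0 := by
    rw [derivative_mul, eval_add, eval_mul, eval_mul, e2, e3]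
    ring
  rw [fp, derivative_add, eval_add, h, derivative_C_mul, eval_mul, eval_C, e4]

theorem exists_t (l : ℕ) (q : ℕ) (hq : q.Prime) (hq2 : 1457 < q) :
    ∃ t0 t1 : ℤ, ∀ N : ℤ, (q : ℤ) ∣ (ff l q t0 t1 N).coeff 0 ∧
      ¬ ((q : ℤ) ^ 2 ∣ (ff l q t0 t1 N).coeff 0) ∧ (q : ℤ) ∣ (ff l q t0 t1 N).coeff 1 := by
  obtain ⟨a, b, hab⟩ := Coef_coprime q hq hq2
  obtain ⟨A, hA⟩ : ∃ A : ℤ, A = m1 * m2 ^ l - 107 * 1457 * 7 := ⟨_, rfl⟩
  obtain ⟨c1, hc1⟩ : ∃ c1 : ℤ, c1 = (G s1 m1 * G s2 m2 ^ l).derivative.eval 0 := ⟨_, rfl⟩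
  obtain ⟨t0, ht0⟩ : ∃ t0 : ℤ, t0 = a * (A - q) := ⟨_, rfl⟩
  obtain ⟨c2, hc2⟩ : ∃ c2 : ℤ, c2 = c1 - 4 * 1457 * 7 * (1 + 7 * t0) := ⟨_, rfl⟩
  refine ⟨t0, a * c2, ?_⟩
  intro N
  obtain ⟨r0, hr0⟩ : ∃ r0 : ℤ, r0 = (Rl l).eval 0 := ⟨_, rfl⟩
  obtain ⟨r1, hr1⟩ : ∃ r1 : ℤ, r1 = (Rl l).derivative.eval 0 := ⟨_, rfl⟩
  have eE : (C 7 * (Flin t0 (a * c2) - C (7 * (q : ℤ) ^ 2 * N) * Rl l)).eval 0
      = 7 * ((1 + 7 * t0) - 7 * (q : ℤ) ^ 2 * N * r0) := by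
    rw [eval_mul, eval_sub, eval_mul, eval_C, eval_C, Flin, eval_add, eval_C, eval_mul, eval_C,
      eval_X, ← hr0]
    ring
  have h0 : (ff l q t0 (a * c2) N).coeff 0 = q + (q : ℤ) ^ 2 * (b * (A - q)
      + 107 * 1457 * 49 * N * r0) := by
    rw [coeff_zero_eq_eval_zero, ff, fp_eval, eE, ht0]
    linear_combination -(A - q) * hab - hA
  have h1 : (ff l q t0 (a * c2) N).coeff 1 = (q : ℤ) ^ 2 * (b * c2
      + 4 * 1457 * 49 * N * r0 + 107 * 1457 * 49 * N * r1) := by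
    have e1 : (ff l q t0 (a * c2) N).coeff 1
        = (ff l q t0 (a * c2) N).derivative.eval 0 := by
      rw [← coeff_zero_eq_eval_zero, coeff_derivative]
      simp
    rw [e1, ff, Coef_fp_der, ← hc1, eE]
    have e4 : (derivative (C 7 * (Flin t0 (a * c2)
        - C (7 * (q : ℤ) ^ 2 * N) * Rl l))).eval 0
        = 7 * (7 * (a * c2) - 7 * (q : ℤ) ^ 2 * N * r1) := by
      rw [derivative_C_mul, derivative_sub, derivative_C_mul, Flin, derivative_add, derivative_C,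
        derivative_C_mul, derivative_X, eval_mul, eval_sub, eval_mul, eval_C, eval_C, ← hr1]
      simp
    rw [e4]
    linear_combination (-c2) * hab - hc2
  refine ⟨?_, ?_, ?_⟩
  · rw [h0]
    exact Dvd.intro (1 + q * (b * (A - q) + 107 * 1457 * 49 * N * r0)) (by ring)
  · rw [h0]
    intro hd
    have h2 : (q : ℤ) ^ 2 ∣ (q : ℤ) := (dvd_add_left (Dvd.intro _ rfl)).1 hd
    have h3 : (q : ℤ) ^ 2 ≤ q := Int.le_of_dvd (by exact_mod_cast hq.pos) h2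
    have h4 : (1457 : ℤ) < q := by exact_mod_cast hq2
    nlinarith
  · rw [h1, sq, mul_assoc]
    exact Dvd.intro _ rfl

end H97E3
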