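import Mathlib

/-!
# A curve that is 3-isogenous to its conjugate, two integral models, and point counts mod 47
-/

set_option autoImplicit false

namespace H97E3

/-- the curve `y ^ 2 = x ^ 3 + d (x + 4) ^ 2` -/
def curve {R : Type} [CommRing R] (d : R) : WeierstrassCurve R :=
  ⟨0, d, 0, 8 * d, 16 * d⟩

/-- first integral model -/
def modelA {R : Type} [CommRing R] (k a : R) : WeierstrassCurve R :=
  ⟨a + 1, 17 - k * a, 0, 3, -1⟩

/-- second integral model -/
def modelB {R : Type} [CommRing R] (b : R) : WeierstrassCurve R :=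
  ⟨0, 2 * b ^ 2 - 81, 0, b ^ 4 - 18 * b ^ 2, -b ^ 4⟩

theorem curve_Δ {R : Type} [CommRing R] (d : R) :
    (curve d).Δ = 2 ^ 12 * d ^ 2 * (d - 27) := by
  simp only [curve, WeierstrassCurve.Δ, WeierstrassCurve.b₂, WeierstrassCurve.b₄,
    WeierstrassCurve.b₆, WeierstrassCurve.b₈]
  ring

/-- the discriminant of the first model -/
theorem modelA_Δ {R : Type} [CommRing R] (k a b : R) (hab : a * b = 27)
    (hs : a + b = 2 * k - 1) : (modelA k a).Δ = -((a - b) ^ 2 * a ^ 4) := by
  have h2 : 2 * (k * a) = a ^ 2 + a + 27 := by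
    linear_combination (-a) * hs + hab
  have hb2 : (modelA k a).b₂ = 15 - a ^ 2 := by
    simp only [modelA, WeierstrassCurve.b₂]
    linear_combination (-2 : R) * h2
  have hb4 : (modelA k a).b₄ = 6 := by
    simp only [modelA, WeierstrassCurve.b₄]; ring
  have hb6 : (modelA k a).b₆ = -4 := by
    simp only [modelA, WeierstrassCurve.b₆]; ring
  have hb8 : (modelA k a).b₈ = a ^ 2 - 24 := by
    simp only [modelA, WeierstrassCurve.b₈]
    linear_combination (2 : R) * h2
  rw [WeierstrassCurve.Δ, hb2, hb4, hb6, hb8]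
  have e : (a - b) ^ 2 * a ^ 4 = a ^ 2 * (a ^ 2 - 27) ^ 2 := by
    rw [← hab]; ring
  rw [e]
  ring

/-- the discriminant of the second model -/
theorem modelB_Δ {R : Type} [CommRing R] (a b : R) (hab : a * b = 27) :
    (modelB b).Δ = -(2 ^ 12 * (a - b) ^ 2 * b ^ 8) := by
  have e : (a - b) ^ 2 * b ^ 8 = b ^ 6 * (27 - b ^ 2) ^ 2 := by
    rw [← hab]; ring
  have e2 : 2 ^ 12 * (a - b) ^ 2 * b ^ 8 = 2 ^ 12 * ((a - b) ^ 2 * b ^ 8) := by ring
  rw [e2, e]
  simp only [modelB, WeierstrassCurve.Δ, WeierstrassCurve.b₂, WeierstrassCurve.b₄,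
    WeierstrassCurve.b₆, WeierstrassCurve.b₈]
  ring

theorem map_curve {R S : Type} [CommRing R] [CommRing S] (f : R →+* S) (d : R) :
    (curve d).map f = curve (f d) := by
  ext <;> simp [curve, map_ofNat]

theorem map_modelA {R S : Type} [CommRing R] [CommRing S] (f : R →+* S) (k a : R) :
    (modelA k a).map f = modelA (f k) (f a) := by
  ext <;> simp [modelA, map_ofNat]

theorem map_modelB {R S : Type} [CommRing R] [CommRing S] (f : R →+* S) (b : R) :
    (modelB b).map f = modelB (f b) := by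
  ext <;> simp [modelB, map_ofNat]

section field

variable {K : Type} [Field K]

theorem modelA_eq (h2 : (2 : K) ≠ 0) (k a b : K) (hab : a * b = 27)
    (hs : a + b = 2 * k - 1) :
    ∃ C : WeierstrassCurve.VariableChange K, modelA k a = C • curve (27 - a ^ 2) := by
  have hu : (((Units.mk0 (2 : K) h2)⁻¹ : Kˣ) : K) = 1 / 2 := by
    rw [Units.val_inv_eq_inv_val, Units.val_mk0, one_div]
  refine ⟨⟨Units.mk0 2 h2, -4, a + 1, 0⟩, ?_⟩
  rw [WeierstrassCurve.variableChange_def]
  simp only [modelA, curve, hu]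
  obtain ⟨q, hq⟩ : ∃ q : K, q = 1 / 2 := ⟨_, rfl⟩
  have hq2 : 2 * q = 1 := by rw [hq]; field_simp
  rw [← hq]
  have hk : 2 * (k * a) = a ^ 2 + a + 27 := by
    linear_combination (-a) * hs + hab
  ext
  · simp only
    linear_combination (-(a + 1)) * hq2
  · simp only
    linear_combination (-(2 : K) * q ^ 2) * hk + (k * a - 17) * (2 * q + 1) * hq2
  · simp only
    ring
  · simp only
    linear_combination (-3 : K) * (2 * q + 1) * (4 * q ^ 2 + 1) * hq2
  · simp only
    linear_combination (2 * q + 1) * (16 * q ^ 4 + 4 * q ^ 2 + 1) * hq2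

theorem modelB_eq (h3 : (3 : K) ≠ 0) (a b : K) (hb : b ≠ 0) (hab : a * b = 27) :
    ∃ C : WeierstrassCurve.VariableChange K, modelB b = C • curve (27 - a ^ 2) := by
  have hne : 3 / b ≠ 0 := div_ne_zero h3 hb
  have hu : (((Units.mk0 (3 / b) hne)⁻¹ : Kˣ) : K) = b / 3 := by
    rw [Units.val_inv_eq_inv_val, Units.val_mk0, inv_div]
  refine ⟨⟨Units.mk0 (3 / b) hne, -3, 0, 0⟩, ?_⟩
  rw [WeierstrassCurve.variableChange_def]
  simp only [modelB, curve, hu]
  obtain ⟨q, hq⟩ : ∃ q : K, q = b / 3 := ⟨_, rfl⟩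
  have hb3 : b = 3 * q := by rw [hq]; field_simp
  have haq : a * q = 9 := by
    have h0 : (3 : K) * (a * q - 9) = 0 := by
      rw [hb3] at hab
      linear_combination hab
    rcases mul_eq_zero.1 h0 with h | h
    · exact absurd h h3
    · linear_combination h
  rw [← hq, hb3]
  ext
  · simp only
    ring
  · simp only
    linear_combination (a * q + 9) * haq
  · simp only
    ring
  · simp only
    linear_combination (2 * q ^ 2) * (a * q + 9) * haq
  · simp only
    linear_combination (q ^ 4) * (a * q + 9) * haq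

/-- the 3-isogeny to the conjugate -/
theorem isog (h3 : (3 : K) ≠ 0) (a b : K) (hab : a * b = 27) :
    27 - (27 - a ^ 2) = 9 * (a / 3) ^ 2 ∧
    -3 * (27 - a ^ 2) = (a / 3) ^ 2 * (27 - b ^ 2) ∧ a / 3 * (b / 3) = 3 := by
  obtain ⟨s, hs⟩ : ∃ s, s = a / 3 := ⟨_, rfl⟩
  obtain ⟨t, ht⟩ : ∃ t, t = b / 3 := ⟨_, rfl⟩
  have ha : a = 3 * s := by rw [hs]; field_simp
  have hb : b = 3 * t := by rw [ht]; field_simp
  have h9 : (9 : K) ≠ 0 := by
    have : (9 : K) = 3 * 3 := by norm_num
    rw [this]; exact mul_ne_zero h3 h3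
  have hst : s * t = 3 := by
    have h0 : (9 : K) * (s * t - 3) = 0 := by
      rw [ha, hb] at hab
      linear_combination hab
    rcases mul_eq_zero.1 h0 with h | h
    · exact absurd h h9
    · linear_combination h
  rw [← hs, ← ht, ha, hb]
  refine ⟨by ring, ?_, hst⟩
  linear_combination (9 * (s * t + 3)) * hst

end field

/-- `47` minus the number of affine points of the reduction of the Weierstrass curve `W` along
`φ`, that is, `47 + 1 - #W(F_47)`. -/
def tr {R : Type} [CommRing R] (W : WeierstrassCurve R) (φ : R →+* ZMod 47) : ℤ :=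
  47 - ((Finset.univ.filter fun P : ZMod 47 × ZMod 47 =>
    P.2 ^ 2 + φ W.a₁ * P.1 * P.2 + φ W.a₃ * P.2
      = P.1 ^ 3 + φ W.a₂ * P.1 ^ 2 + φ W.a₄ * P.1 + φ W.a₆).card : ℤ)

theorem tr_of {R : Type} [CommRing R] (d : R) (φ : R →+* ZMod 47) (c : ZMod 47)
    (hφ : φ d = c) : tr (curve d) φ = 47 - ((Finset.univ.filter fun P : ZMod 47 × ZMod 47 =>
      P.2 ^ 2 = P.1 ^ 3 + c * P.1 ^ 2 + 8 * c * P.1 + 16 * c).card : ℤ) := by
  rw [tr]
  congr 2
  apply congrArg Finset.card
  apply Finset.filter_congr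
  intro P _
  simp only [curve, map_zero, map_mul, map_ofNat, hφ, zero_mul, add_zero]

end H97E3
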