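import Mathlib

/-!
# The quadratic extension
-/

set_option autoImplicit false

namespace H97E3

open NumberField

/-- the conjugation as an algebra automorphism -/
def conj {F : Type} [Field F] {a b : F} : QuadraticAlgebra F a b ≃ₐ[F] QuadraticAlgebra F a b where
  toFun := star
  invFun := star
  left_inv x := star_star x
  right_inv x := star_star x
  map_mul' x y := by rw [star_mul, mul_comm]
  map_add' x y := star_add x y
  commutes' r := by
    ext
    · simp [QuadraticAlgebra.algebraMap_eq]
    · simp [QuadraticAlgebra.algebraMap_eq]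

theorem conj_apply {F : Type} [Field F] {a b : F} (x : QuadraticAlgebra F a b) :
    conj x = star x := rfl

theorem Ext_repr {F : Type} [Field F] {a b : F} (z : QuadraticAlgebra F a b) :
    z = algebraMap F (QuadraticAlgebra F a b) z.re
      + algebraMap F (QuadraticAlgebra F a b) z.im * QuadraticAlgebra.omega := by
  ext
  · simp [QuadraticAlgebra.algebraMap_eq]
  · simp [QuadraticAlgebra.algebraMap_eq]

theorem exists_ext {F : Type} [Field F] [NumberField F] (k : 𝓞 F)
    (hns : ∀ r : F, r ^ 2 ≠ (2 * (k : F) - 1) ^ 2 - 108) :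
    ∃ (M : Type) (_ : Field M) (_ : NumberField M) (_ : Algebra F M) (σ : M ≃ₐ[F] M)
      (a b : 𝓞 M), Module.finrank F M = 2 ∧ (a : M) * b = 27 ∧
      (a : M) + b = algebraMap F M (2 * (k : F) - 1) ∧ σ a = b ∧ σ b = a ∧
      ∀ z : M, ∃ u v : F, z = algebraMap F M u + algebraMap F M v * a := by
  have hF : Fact (∀ r : F, r ^ 2 ≠ (-27) + (2 * (k : F) - 1) * r) := by
    constructor
    intro r hr
    apply hns (2 * r - (2 * (k : F) - 1))
    linear_combination 4 * hr
  let K := QuadraticAlgebra F (-27) (2 * (k : F) - 1)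
  have hNF : NumberField K := NumberField.of_module_finite F K
  obtain ⟨P, hP⟩ : ∃ P : K, P = QuadraticAlgebra.omega := ⟨_, rfl⟩
  have hsum : P + star P = algebraMap F K (2 * (k : F) - 1) := by
    have h := QuadraticAlgebra.algebraMap_trace_eq_add_star P
    rw [← h, hP, QuadraticAlgebra.trace_omega]
  have hprod : P * star P = algebraMap F K 27 := by
    have h := QuadraticAlgebra.algebraMap_norm_eq_mul_star P
    rw [← h, hP, QuadraticAlgebra.norm_def]
    congr 1
    simp
  rw [map_ofNat] at hprod
  obtain ⟨v, hv⟩ : ∃ v : 𝓞 K, algebraMap (𝓞 K) K v = algebraMap F K (2 * (k : F) - 1) := by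
    apply IsIntegrallyClosed.isIntegral_iff.1
    have h1 : IsIntegral ℤ (((2 * k - 1 : 𝓞 F) : F)) := RingOfIntegers.isIntegral_coe _
    have h3 : ((2 * k - 1 : 𝓞 F) : F) = 2 * (k : F) - 1 := by
      show algebraMap (𝓞 F) F (2 * k - 1) = 2 * algebraMap (𝓞 F) F k - 1
      rw [map_sub, map_mul, map_one, map_ofNat]
    rw [h3] at h1
    have h2 : IsIntegral ℤ (algebraMap F K (2 * (k : F) - 1)) :=
      h1.map (algebraMap F K).toIntAlgHom
    exact h2.tower_top
  obtain ⟨P', hP'⟩ : ∃ P' : 𝓞 K, algebraMap (𝓞 K) K P' = P := by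
    apply IsIntegrallyClosed.isIntegral_iff.1
    refine ⟨Polynomial.X ^ 2 - Polynomial.C v * Polynomial.X + Polynomial.C 27, ?_, ?_⟩
    · monicity!
    · simp only [Polynomial.eval₂_sub, Polynomial.eval₂_add, Polynomial.eval₂_mul,
        Polynomial.eval₂_pow, Polynomial.eval₂_X, Polynomial.eval₂_C, hv]
      have h0 : algebraMap (𝓞 K) K 27 = 27 := map_ofNat _ 27
      rw [h0]
      linear_combination P * hsum - hprod
  refine ⟨K, inferInstance, hNF, inferInstance, conj, P', v - P', ?_, ?_, ?_, ?_, ?_, ?_⟩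
  · exact QuadraticAlgebra.finrank_eq_two _ _
  · show algebraMap (𝓞 K) K P' * algebraMap (𝓞 K) K (v - P') = 27
    rw [map_sub, hv, hP']
    linear_combination hprod - P * hsum
  · show algebraMap (𝓞 K) K P' + algebraMap (𝓞 K) K (v - P') = _
    rw [map_sub, hv, hP']
    ring
  · show conj (algebraMap (𝓞 K) K P') = algebraMap (𝓞 K) K (v - P')
    rw [map_sub, hv, hP', conj_apply]
    linear_combination hsum
  · show conj (algebraMap (𝓞 K) K (v - P')) = algebraMap (𝓞 K) K P'
    rw [map_sub, hv, hP', map_sub, AlgEquiv.commutes, conj_apply]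
    linear_combination -hsum
  · intro z
    refine ⟨z.re, z.im, ?_⟩
    show z = algebraMap F K z.re + algebraMap F K z.im * algebraMap (𝓞 K) K P'
    rw [hP', hP]
    exact Ext_repr z

end H97E3
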