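import Mathlib

/-!
# Integers of the quadratic extension, and homomorphisms to `F_p`
-/

set_option autoImplicit false

namespace H97E3

open NumberField

section

theorem OM_coe {F M : Type} [Field F] [NumberField F] [Field M] [NumberField M] [Algebra F M]
    (x : 𝓞 F) : ((algebraMap (𝓞 F) (𝓞 M) x : 𝓞 M) : M) = algebraMap F M (x : F) := by
  change algebraMap (𝓞 M) M (algebraMap (𝓞 F) (𝓞 M) x) = algebraMap F M (algebraMap (𝓞 F) F x)
  rw [← IsScalarTower.algebraMap_apply, ← IsScalarTower.algebraMap_apply]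

theorem OM_lift {F M : Type} [Field F] [NumberField F] [Field M] [NumberField M] [Algebra F M]
    (v : F) (hv : IsIntegral ℤ (algebraMap F M v)) : ∃ y : 𝓞 F, (y : F) = v := by
  have h := (isIntegral_algebraMap_iff (algebraMap F M).injective).1 hv
  exact ⟨⟨v, h⟩, rfl⟩

variable {F M : Type} [Field F] [NumberField F] [Field M] [NumberField M] [Algebra F M]
  (k : 𝓞 F) (σ : M ≃ₐ[F] M) (a b : 𝓞 M) (hab : (a : M) * b = 27)
  (hs : (a : M) + b = algebraMap F M (2 * (k : F) - 1)) (h1 : σ a = b) (h2 : σ b = a)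
  (hdec : ∀ z : M, ∃ u v : F, z = algebraMap F M u + algebraMap F M v * a)
  (hu : IsUnit (4 * k ^ 2 - 4 * k - 107))

include hab hs in
theorem OM_sq : ((a : M) - b) ^ 2 = algebraMap F M ((4 * k ^ 2 - 4 * k - 107 : 𝓞 F) : F) := by
  have e : ((4 * k ^ 2 - 4 * k - 107 : 𝓞 F) : F) = (2 * (k : F) - 1) ^ 2 - 4 * 27 := by
    change algebraMap (𝓞 F) F (4 * k ^ 2 - 4 * k - 107) = (2 * algebraMap (𝓞 F) F k - 1) ^ 2 - 4 * 27
    rw [map_sub, map_sub, map_mul, map_mul, map_pow, map_ofNat, map_ofNat]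
    ring
  rw [e, map_sub, map_pow, ← hs]
  have e2 : algebraMap F M (4 * 27) = 4 * 27 := by
    rw [map_mul, map_ofNat, map_ofNat]
  rw [e2]
  linear_combination (-4 : M) * hab

include hab hs h1 h2 hdec hu

theorem int_decomp (z : 𝓞 M) : ∃ x y : 𝓞 F,
    z = algebraMap (𝓞 F) (𝓞 M) x + algebraMap (𝓞 F) (𝓞 M) y * a := by
  obtain ⟨u, v, huv⟩ := hdec z
  obtain ⟨w, hw⟩ := hu.exists_right_inv
  have hsq := OM_sq k a b hab hs
  have hσ : σ (z : M) = algebraMap F M u + algebraMap F M v * b := by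
    rw [huv, map_add, map_mul, AlgEquiv.commutes, AlgEquiv.commutes, h1]
  have hzi : IsIntegral ℤ (z : M) := z.isIntegral_coe
  have hσi : IsIntegral ℤ (σ (z : M)) :=
    hzi.map (σ.toAlgHom.restrictScalars ℤ)
  have hai : IsIntegral ℤ (a : M) := a.isIntegral_coe
  have hbi : IsIntegral ℤ (b : M) := b.isIntegral_coe
  have hwi : IsIntegral ℤ (algebraMap F M (w : F)) := by
    rw [← OM_coe]
    exact (algebraMap (𝓞 F) (𝓞 M) w).isIntegral_coe
  have hew : algebraMap F M ((4 * k ^ 2 - 4 * k - 107 : 𝓞 F) : F) * algebraMap F M (w : F) = 1 := by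
    rw [← map_mul, ← map_mul, hw, map_one, map_one]
  have hv1 : algebraMap F M v = ((z : M) - σ (z : M)) * ((a : M) - b) * algebraMap F M (w : F) := by
    rw [hσ]
    have e1 : (z : M) - (algebraMap F M u + algebraMap F M v * b) = algebraMap F M v * ((a : M) - b) := by
      rw [huv]; ring
    rw [e1]
    have e2 : algebraMap F M v * ((a : M) - b) * ((a : M) - b) * algebraMap F M (w : F)
        = algebraMap F M v * (((a : M) - b) ^ 2 * algebraMap F M (w : F)) := by ring
    rw [e2, hsq, hew, mul_one]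
  have hvi : IsIntegral ℤ (algebraMap F M v) := by
    rw [hv1]
    exact ((hzi.sub hσi).mul (hai.sub hbi)).mul hwi
  obtain ⟨y, hy⟩ := OM_lift (M := M) v hvi
  have hu1 : algebraMap F M u = (z : M) - algebraMap F M v * a := by
    rw [huv]; ring
  have hui : IsIntegral ℤ (algebraMap F M u) := by
    rw [hu1]
    exact hzi.sub (hvi.mul hai)
  obtain ⟨x, hx⟩ := OM_lift (M := M) u hui
  refine ⟨x, y, ?_⟩
  apply RingOfIntegers.ext
  change (z : M) = ((algebraMap (𝓞 F) (𝓞 M) x : 𝓞 M) : M) + ((algebraMap (𝓞 F) (𝓞 M) y : 𝓞 M) : M) * (a : M)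
  rw [OM_coe, OM_coe, hx, hy]
  exact huv

theorem int_unique (x y : 𝓞 F)
    (h : algebraMap (𝓞 F) (𝓞 M) x + algebraMap (𝓞 F) (𝓞 M) y * a = 0) : x = 0 ∧ y = 0 := by
  have hsq := OM_sq k a b hab hs
  have e1 : algebraMap F M (x : F) + algebraMap F M (y : F) * a = 0 := by
    have h3 := congrArg (algebraMap (𝓞 M) M) h
    rw [map_zero] at h3
    rw [← OM_coe, ← OM_coe]
    exact h3
  have e2 : algebraMap F M (x : F) + algebraMap F M (y : F) * b = 0 := by
    have := congrArg σ e1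
    rw [map_add, map_mul, AlgEquiv.commutes, AlgEquiv.commutes, h1, map_zero] at this
    exact this
  have hne : algebraMap F M ((4 * k ^ 2 - 4 * k - 107 : 𝓞 F) : F) ≠ 0 := by
    intro h0
    have h3 := (map_eq_zero (algebraMap F M)).1 h0
    have h4 : (4 * k ^ 2 - 4 * k - 107 : 𝓞 F) = 0 := by
      apply RingOfIntegers.ext
      exact h3
    rw [h4] at hu
    exact not_isUnit_zero hu
  have hab' : (a : M) - b ≠ 0 := by
    intro h0
    rw [h0] at hsq
    apply hne
    rw [← hsq]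
    ring
  have hy : algebraMap F M (y : F) = 0 := by
    have h3 : algebraMap F M (y : F) * ((a : M) - b) = 0 := by linear_combination e1 - e2
    rcases mul_eq_zero.1 h3 with h4 | h4
    · exact h4
    · exact absurd h4 hab'
  have hx : algebraMap F M (x : F) = 0 := by
    rw [hy, zero_mul, add_zero] at e1
    exact e1
  constructor
  · apply RingOfIntegers.ext
    exact (map_eq_zero (algebraMap F M)).1 hx
  · apply RingOfIntegers.ext
    exact (map_eq_zero (algebraMap F M)).1 hy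

theorem exists_hom (p : ℕ) [Fact p.Prime] (φ : 𝓞 F →+* ZMod p) (r : ZMod p)
    (hr : r ^ 2 = (2 * φ k - 1) * r - 27) :
    ∃ Φ : 𝓞 M →+* ZMod p, Φ a = r ∧ ∀ x, Φ (algebraMap (𝓞 F) (𝓞 M) x) = φ x := by
  choose X Y hXY using int_decomp k σ a b hab hs h1 h2 hdec hu
  set ι := algebraMap (𝓞 F) (𝓞 M) with hι
  have key : ∀ x1 y1 x2 y2 : 𝓞 F, ι x1 + ι y1 * a = ι x2 + ι y2 * a → x1 = x2 ∧ y1 = y2 := by
    intro x1 y1 x2 y2 h
    have h3 := int_unique k σ a b hab hs h1 h2 hdec hu (x1 - x2) (y1 - y2) (by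
      rw [map_sub, map_sub]; linear_combination h)
    exact ⟨sub_eq_zero.1 h3.1, sub_eq_zero.1 h3.2⟩
  have ha2 : a ^ 2 = ι (2 * k - 1) * a - 27 := by
    apply RingOfIntegers.ext
    have e1 : ((2 * k - 1 : 𝓞 F) : F) = 2 * (k : F) - 1 := by
      change algebraMap (𝓞 F) F (2 * k - 1) = 2 * algebraMap (𝓞 F) F k - 1
      rw [map_sub, map_mul, map_one, map_ofNat]
    have e2 : algebraMap (𝓞 M) M 27 = 27 := map_ofNat _ 27
    have e3 : ((ι (2 * k - 1) * a - 27 : 𝓞 M) : M) = ((ι (2 * k - 1) : 𝓞 M) : M) * a - 27 := by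
      change algebraMap (𝓞 M) M (ι (2 * k - 1) * a - 27) =
        algebraMap (𝓞 M) M (ι (2 * k - 1)) * algebraMap (𝓞 M) M a - 27
      rw [RingHom.map_sub (algebraMap (𝓞 M) M), RingHom.map_mul (algebraMap (𝓞 M) M), e2]
    have e4 : ((a ^ 2 : 𝓞 M) : M) = (a : M) ^ 2 := RingHom.map_pow (algebraMap (𝓞 M) M) a 2
    rw [e3, hι, OM_coe, e1, ← hs, e4]
    linear_combination (-1 : M) * hab
  have hX : ∀ x : 𝓞 F, X (ι x) = x ∧ Y (ι x) = 0 := by
    intro x
    apply key
    rw [← hXY (ι x), map_zero, zero_mul, add_zero]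
  have hA : X a = 0 ∧ Y a = 1 := by
    apply key
    rw [← hXY a, map_zero, map_one, one_mul, zero_add]
  have hadd : ∀ z1 z2, X (z1 + z2) = X z1 + X z2 ∧ Y (z1 + z2) = Y z1 + Y z2 := by
    intro z1 z2
    apply key
    rw [← hXY (z1 + z2), map_add, map_add]
    linear_combination hXY z1 + hXY z2
  have hmul : ∀ z1 z2, X (z1 * z2) = X z1 * X z2 - 27 * (Y z1 * Y z2)
      ∧ Y (z1 * z2) = X z1 * Y z2 + Y z1 * X z2 + (2 * k - 1) * (Y z1 * Y z2) := by
    intro z1 z2
    apply key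
    rw [← hXY (z1 * z2)]
    have e27 : ι 27 = 27 := map_ofNat ι 27
    have e1 := hXY z1
    have e2 := hXY z2
    have e4 : z1 * z2 = (ι (X z1) + ι (Y z1) * a) * (ι (X z2) + ι (Y z2) * a) := by
      rw [← e1, ← e2]
    rw [map_sub, map_mul, map_mul, map_mul, map_add, map_add, map_mul, map_mul, map_mul, map_mul, e27]
    linear_combination e4 + (ι (Y z1) * ι (Y z2)) * ha2
  have hone : X 1 = 1 ∧ Y 1 = 0 := by
    have := hX 1
    rwa [map_one] at this
  have hzero : X 0 = 0 ∧ Y 0 = 0 := by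
    have := hX 0
    rwa [map_zero] at this
  refine ⟨{ toFun := fun z => φ (X z) + φ (Y z) * r
            map_one' := ?_
            map_mul' := ?_
            map_zero' := ?_
            map_add' := ?_ }, ?_, ?_⟩
  · rw [hone.1, hone.2, map_one, map_zero, zero_mul, add_zero]
  · intro z1 z2
    rw [(hmul z1 z2).1, (hmul z1 z2).2]
    have e27 : φ 27 = 27 := map_ofNat φ 27
    have e2k : φ (2 * k - 1) = 2 * φ k - 1 := by
      rw [map_sub, map_mul, map_one, map_ofNat]
    rw [map_sub, map_mul, map_mul, map_mul, map_add, map_add, map_mul, map_mul, map_mul, map_mul, e27, e2k]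
    linear_combination (-(φ (Y z1) * φ (Y z2))) * hr
  · rw [hzero.1, hzero.2, map_zero, zero_mul, add_zero]
  · intro z1 z2
    rw [(hadd z1 z2).1, (hadd z1 z2).2, map_add, map_add]
    ring
  · show φ (X a) + φ (Y a) * r = r
    rw [hA.1, hA.2, map_zero, map_one, one_mul, zero_add]
  · intro x
    show φ (X (ι x)) + φ (Y (ι x)) * r = φ x
    rw [(hX x).1, (hX x).2, map_zero, zero_mul, add_zero]

end

end H97E3
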