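import Mathlib

/-!
# The quadratic extension is totally real
-/

set_option autoImplicit false

namespace H97E3

open NumberField

theorem totally_real {F M : Type} [Field F] [NumberField F] [IsTotallyReal F] [Field M]
    [NumberField M] [Algebra F M]
    (k : 𝓞 F) (a b : M) (hab : a * b = 27)
    (hs : a + b = algebraMap F M (2 * (k : F) - 1))
    (hdec : ∀ z : M, ∃ u v : F, z = algebraMap F M u + algebraMap F M v * a)
    (hpos : ∀ τ : F →+* ℝ, 0 < 4 * (τ k) ^ 2 - 4 * τ k - 107) : IsTotallyReal M := by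
  constructor
  intro v
  obtain ⟨τ, hτ⟩ : ∃ τ, τ = v.embedding := ⟨_, rfl⟩
  rw [InfinitePlace.isReal_iff, ← hτ, ComplexEmbedding.isReal_iff]
  have hL0 : ComplexEmbedding.IsReal (τ.comp (algebraMap F M)) :=
    IsTotallyReal.complexEmbedding_isReal (K := F) (τ.comp (algebraMap F M))
  have hL : ∀ l : F, (starRingEnd ℂ) (τ (algebraMap F M l)) = τ (algebraMap F M l) := by
    intro l
    have h1 := hL0
    rw [ComplexEmbedding.isReal_iff] at h1
    have h2 := congrArg (fun f : F →+* ℂ => f l) h1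
    exact h2
  obtain ⟨x, hx⟩ : ∃ x : ℝ, x = hL0.embedding (k : F) := ⟨_, rfl⟩
  have hxk : τ (algebraMap F M (k : F)) = (x : ℂ) := by
    rw [hx, ComplexEmbedding.IsReal.coe_embedding_apply]
    rfl
  have hpx : 0 < 4 * x ^ 2 - 4 * x - 107 := by
    have := hpos hL0.embedding
    rw [← hx] at this
    exact this
  have hsum : τ a + τ b = 2 * (x : ℂ) - 1 := by
    rw [← map_add, hs, map_sub, map_mul, map_sub, map_mul, hxk, map_ofNat, map_ofNat, map_one,
      map_one]
  have hprod : τ a * τ b = 27 := by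
    rw [← map_mul, hab, map_ofNat]
  have hdd : (starRingEnd ℂ) (τ a - τ b) = τ a - τ b := by
    have h3 : ((Real.sqrt (4 * x ^ 2 - 4 * x - 107) : ℝ) : ℂ) ^ 2
        = ((4 * x ^ 2 - 4 * x - 107 : ℝ) : ℂ) := by
      rw [← Complex.ofReal_pow, Real.sq_sqrt hpx.le]
    push_cast at h3
    have h2 : (τ a - τ b - (Real.sqrt (4 * x ^ 2 - 4 * x - 107) : ℂ))
        * (τ a - τ b + (Real.sqrt (4 * x ^ 2 - 4 * x - 107) : ℂ)) = 0 := by
      have h4 : (τ a - τ b) ^ 2 = (2 * (x : ℂ) - 1) ^ 2 - 4 * 27 := by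
        rw [← hsum, ← hprod]; ring
      linear_combination h4 - h3
    rcases mul_eq_zero.1 h2 with h | h
    · have : τ a - τ b = (Real.sqrt (4 * x ^ 2 - 4 * x - 107) : ℂ) := by linear_combination h
      rw [this, Complex.conj_ofReal]
    · have : τ a - τ b = - (Real.sqrt (4 * x ^ 2 - 4 * x - 107) : ℂ) := by linear_combination h
      rw [this, map_neg, Complex.conj_ofReal]
  have hrr : (starRingEnd ℂ) (τ a) = τ a := by
    have h1 : τ a = (2 * (x : ℂ) - 1 + (τ a - τ b)) / 2 := by linear_combination (1 / 2) * hsum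
    have h2 : (starRingEnd ℂ) ((2 * (x : ℂ) - 1 + (τ a - τ b)) / 2)
        = (2 * (x : ℂ) - 1 + (τ a - τ b)) / 2 := by
      rw [map_div₀, map_add, hdd, map_sub, map_mul, Complex.conj_ofReal, map_ofNat, map_one]
    rw [h1]
    exact h2
  ext y
  obtain ⟨s, t, rfl⟩ := hdec y
  rw [ComplexEmbedding.conjugate_coe_eq, map_add, map_mul, map_add, map_mul, hL, hL, hrr]

end H97E3
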