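import Mathlib
import Pool.Agent.H97.E3.Curve

/-!
# The four point counts mod 47
-/

set_option autoImplicit false

namespace H97E3

theorem cnt38 : (Finset.univ.filter fun P : ZMod 47 × ZMod 47 =>
      P.2 ^ 2 = P.1 ^ 3 + 38 * P.1 ^ 2 + 8 * 38 * P.1 + 16 * 38).card = 35 := by
  decide +kernel

theorem cnt42 : (Finset.univ.filter fun P : ZMod 47 × ZMod 47 =>
      P.2 ^ 2 = P.1 ^ 3 + 42 * P.1 ^ 2 + 8 * 42 * P.1 + 16 * 42).card = 35 := by
  decide +kernel

theorem cnt37 : (Finset.univ.filter fun P : ZMod 47 × ZMod 47 =>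
      P.2 ^ 2 = P.1 ^ 3 + 37 * P.1 ^ 2 + 8 * 37 * P.1 + 16 * 37).card = 53 := by
  decide +kernel

theorem cnt20 : (Finset.univ.filter fun P : ZMod 47 × ZMod 47 =>
      P.2 ^ 2 = P.1 ^ 3 + 20 * P.1 ^ 2 + 8 * 20 * P.1 + 16 * 20).card = 53 := by
  decide +kernel

/-- at `k = 7` the trace is `12` -/
theorem tr_seven {R : Type} [CommRing R] (k a b : R) (hab : a * b = 27)
    (hs : a + b = 2 * k - 1) (φ : R →+* ZMod 47) (hφ : φ k = 7) :
    tr (curve (27 - a ^ 2)) φ = 12 := by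
  have h1 : φ a * φ b = 27 := by rw [← map_mul, hab, map_ofNat]
  have h2 : φ a + φ b = 13 := by
    rw [← map_add, hs, map_sub, map_mul, hφ, map_ofNat, map_one]
    decide
  have h3 : (φ a) ^ 2 - 13 * φ a + 27 = 0 := by
    linear_combination φ a * h2 - h1
  have key : ∀ x : ZMod 47, x ^ 2 - 13 * x + 27 = 0 → 27 - x ^ 2 = 38 ∨ 27 - x ^ 2 = 42 := by
    decide
  have e : φ (27 - a ^ 2) = 27 - (φ a) ^ 2 := by
    rw [map_sub, map_pow, map_ofNat]
  rcases key _ h3 with h | h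
  · rw [tr_of _ φ 38 (by rw [e, h]), cnt38]; norm_num
  · rw [tr_of _ φ 42 (by rw [e, h]), cnt42]; norm_num

/-- at `k = 25` the trace is `-6` -/
theorem tr_twentyfive {R : Type} [CommRing R] (k a b : R) (hab : a * b = 27)
    (hs : a + b = 2 * k - 1) (φ : R →+* ZMod 47) (hφ : φ k = 25) :
    tr (curve (27 - a ^ 2)) φ = -6 := by
  have h1 : φ a * φ b = 27 := by rw [← map_mul, hab, map_ofNat]
  have h2 : φ a + φ b = 2 := by
    rw [← map_add, hs, map_sub, map_mul, hφ, map_ofNat, map_one]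
    decide
  have h3 : (φ a) ^ 2 - 2 * φ a + 27 = 0 := by
    linear_combination φ a * h2 - h1
  have key : ∀ x : ZMod 47, x ^ 2 - 2 * x + 27 = 0 → 27 - x ^ 2 = 37 ∨ 27 - x ^ 2 = 20 := by
    decide
  have e : φ (27 - a ^ 2) = 27 - (φ a) ^ 2 := by
    rw [map_sub, map_pow, map_ofNat]
  rcases key _ h3 with h | h
  · rw [tr_of _ φ 37 (by rw [e, h]), cnt37]; norm_num
  · rw [tr_of _ φ 20 (by rw [e, h]), cnt20]; norm_num

end H97E3
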