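import Mathlib
import Pool.Agent.H97.E3.Tr
import Pool.Agent.H97.E3.Ext
import Pool.Agent.H97.E3.OM
import Pool.Agent.H97.E3.Tot
import Pool.Agent.H97.E3.Data

/-!
# From the data to the curve
-/

set_option autoImplicit false

namespace H97E3

open NumberField

/-- the final property of the field `F` -/
def Good (F : Type) [Field F] [NumberField F] : Prop :=
  ∃ (k : 𝓞 F) (M : Type) (_ : Field M) (_ : NumberField M) (_ : Algebra F M) (σ : M ≃ₐ[F] M)
    (a : 𝓞 M), IsUnit ((2 * k - 1) ^ 2 - 108) ∧ Module.finrank F M = 2 ∧ IsTotallyReal M ∧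
    (a : M) * σ a = 27 ∧ (a : M) + σ a = algebraMap F M (2 * (k : F) - 1) ∧
    (∃ s : M, 27 - (27 - (a : M) ^ 2) = 9 * s ^ 2 ∧
      -3 * (27 - (a : M) ^ 2) = s ^ 2 * σ (27 - (a : M) ^ 2) ∧ s * σ s = 3) ∧
    (∀ R : Ideal (𝓞 M), R.IsPrime → ∃ (W : WeierstrassCurve (𝓞 M))
      (C : WeierstrassCurve.VariableChange M),
      W.map (algebraMap (𝓞 M) M) = C • (curve (27 - a ^ 2)).map (algebraMap (𝓞 M) M) ∧
      W.Δ ∉ R) ∧
    ∃ φ ψ : 𝓞 M →+* ZMod 47, tr (curve (27 - a ^ 2)) φ = 12 ∧ tr (curve (27 - a ^ 2)) ψ = -6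

theorem Good_nonsq : ∀ x : ZMod 31, x ^ 2 ≠ (2 * 7 - 1) ^ 2 - 108 := by decide

theorem Good_ns {F : Type} [Field F] [NumberField F] (k : 𝓞 F) (χ : 𝓞 F →+* ZMod 31)
    (hχ : χ k = 7) (r : F) : r ^ 2 ≠ (2 * (k : F) - 1) ^ 2 - 108 := by
  intro h
  have e : (((2 * k - 1) ^ 2 - 108 : 𝓞 F) : F) = (2 * (k : F) - 1) ^ 2 - 108 := by
    change algebraMap (𝓞 F) F ((2 * k - 1) ^ 2 - 108) = (2 * algebraMap (𝓞 F) F k - 1) ^ 2 - 108
    rw [map_sub, map_pow, map_sub, map_mul, map_one, map_ofNat, map_ofNat]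
  have hi : IsIntegral ℤ r := by
    apply IsIntegral.of_pow (n := 2) (by norm_num)
    rw [h, ← e]
    exact RingOfIntegers.isIntegral_coe _
  obtain ⟨r', hr'⟩ : ∃ r' : 𝓞 F, (r' : F) = r := ⟨⟨r, hi⟩, rfl⟩
  have h2 : r' ^ 2 = (2 * k - 1) ^ 2 - 108 := by
    apply RingOfIntegers.ext
    rw [e, ← h, ← hr']
    exact RingHom.map_pow (algebraMap (𝓞 F) F) r' 2
  have h3 := congrArg χ h2
  rw [map_pow, map_sub, map_pow, map_sub, map_mul, map_one, map_ofNat, map_ofNat, hχ] at h3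
  exact Good_nonsq _ h3

theorem Good_roots : (41 : ZMod 47) ^ 2 = (2 * 7 - 1) * 41 - 27 ∧
    (32 : ZMod 47) ^ 2 = (2 * 25 - 1) * 32 - 27 := by decide

theorem good_of_data (F : Type) [Field F] [NumberField F] [IsTotallyReal F] (h : Data F) :
    Good F := by
  obtain ⟨k, hu, hpos, ⟨χ, hχ⟩, ⟨φ, hφ⟩, ⟨ψ, hψ⟩⟩ := h
  obtain ⟨M, iM, iN, iA, σ, a, b, hfr, hab, hs, h1, h2, hdec⟩ := exists_ext k (Good_ns k χ hχ)
  have : Fact (Nat.Prime 47) := ⟨by norm_num⟩
  obtain ⟨k', hk'⟩ : ∃ k' : 𝓞 M, k' = algebraMap (𝓞 F) (𝓞 M) k := ⟨_, rfl⟩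
  have hk'c : (k' : M) = algebraMap F M (k : F) := by rw [hk', OM_coe]
  have hab' : a * b = 27 := by
    apply RingOfIntegers.ext
    have e2 : algebraMap (𝓞 M) M 27 = 27 := map_ofNat _ 27
    change algebraMap (𝓞 M) M (a * b) = algebraMap (𝓞 M) M 27
    rw [map_mul, e2]
    exact hab
  have hs' : a + b = 2 * k' - 1 := by
    apply RingOfIntegers.ext
    change algebraMap (𝓞 M) M (a + b) = algebraMap (𝓞 M) M (2 * k' - 1)
    rw [map_add, map_sub, map_mul, map_one, map_ofNat]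
    have e3 : (a : M) + b = 2 * (k' : M) - 1 := by
      rw [hs, map_sub, map_mul, map_one, map_ofNat, hk'c]
    exact e3
  have hsM : (a : M) + b = 2 * (k' : M) - 1 := by
    rw [hs, map_sub, map_mul, map_one, map_ofNat, hk'c]
  have hu2 : IsUnit ((2 * k - 1) ^ 2 - 108) := by
    have e : (2 * k - 1) ^ 2 - 108 = 4 * k ^ 2 - 4 * k - 107 := by ring
    rw [e]; exact hu
  have hM3 : (3 : M) ≠ 0 := by norm_num
  have hM2 : (2 : M) ≠ 0 := by norm_num
  obtain ⟨i1, i2, i3⟩ := isog hM3 (a : M) (b : M) hab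
  have hbne : (b : M) ≠ 0 := by
    intro h0
    rw [h0, mul_zero] at hab
    norm_num at hab
  have hunit : IsUnit ((a - b) ^ 2) := by
    have e : (a - b) ^ 2 = algebraMap (𝓞 F) (𝓞 M) (4 * k ^ 2 - 4 * k - 107) := by
      rw [map_sub, map_sub, map_mul, map_mul, map_pow, map_ofNat, map_ofNat, ← hk']
      linear_combination (a + b + (2 * k' - 1)) * hs' - 4 * hab'
    rw [e]
    exact hu.map _
  refine ⟨k, M, iM, iN, iA, σ, a, hu2, hfr, ?_, ?_, ?_, ⟨(a : M) / 3, i1, ?_, ?_⟩, ?_, ?_⟩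
  · exact totally_real k (a : M) (b : M) hab hs hdec hpos
  · rw [h1]; exact hab
  · rw [h1]; exact hs
  · rw [map_sub, map_pow, h1, map_ofNat]
    exact i2
  · rw [map_div₀, h1, map_ofNat]
    exact i3
  · intro R hR
    have e27 : algebraMap (𝓞 M) M (27 - a ^ 2) = 27 - (a : M) ^ 2 := by
      rw [map_sub, map_pow, map_ofNat]
    by_cases haR : a ∈ R
    · have h2R : (2 : 𝓞 M) ∉ R := by
        intro h2R
        apply hR.ne_top
        rw [Ideal.eq_top_iff_one]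
        have e1 : (1 : 𝓞 M) = a * b - 2 * 13 := by rw [hab']; norm_num
        rw [e1]
        exact R.sub_mem (R.mul_mem_right _ haR) (R.mul_mem_right _ h2R)
      have hbR : b ∉ R := by
        intro hbR
        have h0 : (a - b) ^ 2 ∈ R := by
          rw [sq]
          exact R.mul_mem_left _ (R.sub_mem haR hbR)
        exact hR.ne_top (Ideal.eq_top_of_isUnit_mem _ h0 hunit)
      obtain ⟨C, hC⟩ := modelB_eq hM3 (a : M) (b : M) hbne hab
      refine ⟨modelB b, C, ?_, ?_⟩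
      · rw [map_modelB, map_curve, e27]
        exact hC
      · rw [modelB_Δ a b hab']
        intro h0
        have h0' := R.neg_mem_iff.1 h0
        rcases hR.mem_or_mem h0' with h3 | h3
        · rcases hR.mem_or_mem h3 with h4 | h4
          · exact h2R (hR.mem_of_pow_mem _ h4)
          · exact hR.ne_top (Ideal.eq_top_of_isUnit_mem _ h4 hunit)
        · exact hbR (hR.mem_of_pow_mem _ h3)
    · obtain ⟨C, hC⟩ := modelA_eq hM2 (k' : M) (a : M) (b : M) hab hsM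
      refine ⟨modelA k' a, C, ?_, ?_⟩
      · rw [map_modelA, map_curve, e27]
        exact hC
      · rw [modelA_Δ k' a b hab' hs']
        intro h0
        have h0' := R.neg_mem_iff.1 h0
        rcases hR.mem_or_mem h0' with h3 | h3
        · exact hR.ne_top (Ideal.eq_top_of_isUnit_mem _ h3 hunit)
        · exact haR (hR.mem_of_pow_mem _ h3)
  · obtain ⟨r1, r2⟩ := Good_roots
    obtain ⟨Φ, -, hΦ⟩ := exists_hom k σ a b hab hs h1 h2 hdec hu 47 φ 41 (by rw [hφ]; exact r1)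
    obtain ⟨Ψ, -, hΨ⟩ := exists_hom k σ a b hab hs h1 h2 hdec hu 47 ψ 32 (by rw [hψ]; exact r2)
    refine ⟨Φ, Ψ, tr_seven k' a b hab' hs' Φ ?_, tr_twentyfive k' a b hab' hs' Ψ ?_⟩
    · rw [hk', hΦ, hφ]
    · rw [hk', hΨ, hψ]

end H97E3
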