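import Mathlib

/-!
# Location of the roots of a polynomial with alternating signs
-/

set_option autoImplicit false

namespace H97E3

open Polynomial

private theorem Roots_mono (n : ℕ) (t : ℕ → ℝ) (ht : ∀ i, i < n → t i < t (i + 1)) :
    ∀ j, j ≤ n → ∀ i, i ≤ j → t i ≤ t j := by
  intro j
  induction j with
  | zero => intro _ i hi; rw [Nat.le_zero.1 hi]
  | succ j ih =>
    intro hj i hi
    rcases Nat.lt_or_ge i (j + 1) with h | h
    · exact le_trans (ih (by omega) i (by omega)) (ht j (by omega)).le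
    · rw [le_antisymm hi h]

theorem roots_loc (n : ℕ) (G : ℝ[X]) (t : ℕ → ℝ)
    (ht : ∀ i, i < n → t i < t (i + 1))
    (hs : ∀ j, j ≤ n → 0 < (-1 : ℝ) ^ (n - j) * G.eval (t j)) :
    ∃ r : Fin n → ℝ, Function.Injective r ∧ ∀ i : Fin n, t i < r i ∧ r i < t (i + 1) ∧
      G.eval (r i) = 0 := by
  have hex : ∀ i : Fin n, ∃ x : ℝ, t i < x ∧ x < t (i + 1) ∧ G.eval x = 0 := by
    intro i
    have hi := i.2
    have h1 := hs i (by omega)
    have h2 := hs (i + 1) (by omega)
    have e : (-1 : ℝ) ^ (n - i) = -(-1 : ℝ) ^ (n - (i + 1)) := by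
      have : n - (i : ℕ) = (n - (i + 1)) + 1 := by omega
      rw [this, pow_succ]; ring
    rw [e] at h1
    have hcont : ContinuousOn (fun x : ℝ => (-1 : ℝ) ^ (n - ((i : ℕ) + 1)) * G.eval x)
        (Set.Icc (t i) (t (i + 1))) := by
      apply Continuous.continuousOn
      exact continuous_const.mul G.continuous
    have hiv := intermediate_value_Ioo (ht i hi).le hcont
    have hmem : (0 : ℝ) ∈ Set.Ioo ((-1 : ℝ) ^ (n - ((i : ℕ) + 1)) * G.eval (t i))
        ((-1 : ℝ) ^ (n - ((i : ℕ) + 1)) * G.eval (t (i + 1))) := by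
      constructor
      · linarith
      · exact h2
    obtain ⟨x, hx, hx0⟩ := hiv hmem
    refine ⟨x, hx.1, hx.2, ?_⟩
    rcases mul_eq_zero.1 hx0 with h | h
    · exfalso
      exact (pow_ne_zero _ (by norm_num)) h
    · exact h
  choose r hr1 hr2 hr3 using hex
  have hmono := Roots_mono n t ht
  have hlt : ∀ i j : Fin n, i < j → r i < r j := by
    intro i j hij
    have h1 : (i : ℕ) + 1 ≤ j := hij
    calc r i < t (i + 1) := hr2 i
      _ ≤ t j := hmono j j.2.le _ h1
      _ < r j := hr1 j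
  refine ⟨r, ?_, fun i => ⟨hr1 i, hr2 i, hr3 i⟩⟩
  intro i j hij
  rcases lt_trichotomy i j with h | h | h
  · exact absurd hij (hlt i j h).ne
  · exact h
  · exact absurd hij (hlt j i h).ne'

private theorem Roots_real (n : ℕ) (G : ℝ[X]) (hdeg : G.natDegree = n) (hG : G ≠ 0)
    (r : Fin n → ℝ) (hinj : Function.Injective r) (hr : ∀ i, G.eval (r i) = 0)
    (z : ℂ) (hz : aeval z G = 0) : ∃ i, z = (r i : ℂ) := by
  classical
  by_contra hcon
  push Not at hcon
  have hG' : G.map (algebraMap ℝ ℂ) ≠ 0 := by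
    rw [Ne, Polynomial.map_eq_zero]; exact hG
  obtain ⟨S, hS⟩ : ∃ S : Finset ℂ, S = insert z (Finset.univ.image (fun i => (r i : ℂ))) :=
    ⟨_, rfl⟩
  have hcard : S.card = n + 1 := by
    rw [hS, Finset.card_insert_of_notMem, Finset.card_image_of_injective, Finset.card_univ,
      Fintype.card_fin]
    · intro i j hij
      exact hinj (Complex.ofReal_injective hij)
    · intro h
      obtain ⟨i, -, hi⟩ := Finset.mem_image.1 h
      exact hcon i hi.symm
  have hsub : S.val ⊆ (G.map (algebraMap ℝ ℂ)).roots := by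
    intro x hx
    have hx' : x ∈ S := hx
    rw [mem_roots hG', IsRoot.def, eval_map_algebraMap]
    rw [hS, Finset.mem_insert] at hx'
    rcases hx' with h | h
    · rw [h]; exact hz
    · obtain ⟨i, -, hi⟩ := Finset.mem_image.1 h
      rw [← hi]
      have := aeval_algebraMap_apply ℂ (r i) G
      rw [coe_aeval_eq_eval, hr i, map_zero] at this
      exact this
  have := card_le_degree_of_subset_roots hsub
  rw [hcard, natDegree_map, hdeg] at this
  omega

private theorem Roots_aeval (G : ℝ[X]) (x : ℝ) (hx : G.eval x = 0) : aeval (x : ℂ) G = 0 := by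
  have := aeval_algebraMap_apply ℂ x G
  rw [coe_aeval_eq_eval, hx, map_zero] at this
  exact this

theorem roots_pos (n : ℕ) (G : ℝ[X]) (hdeg : G.natDegree = n) (hG : G ≠ 0) (θ1 θ2 : ℝ)
    (h12 : θ1 < θ2) (t t' : ℕ → ℝ)
    (ht : ∀ i, i < n → t i < t (i + 1))
    (hs : ∀ j, j ≤ n → 0 < (-1 : ℝ) ^ (n - j) * G.eval (t j))
    (ht' : ∀ i, i < n → t' i < t' (i + 1))
    (hs' : ∀ j, j ≤ n → 0 < (-1 : ℝ) ^ (n - j) * G.eval (t' j))
    (j : ℕ) (hj : 1 ≤ j) (hjn : j < n) (e1 : t j = θ1) (e2 : t' j = θ2)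
    (heq : ∀ i, i ≠ j → t i = t' i) (z : ℂ) (hz : aeval z G = 0) :
    ∃ x : ℝ, z = (x : ℂ) ∧ (x < θ1 ∨ θ2 < x) := by
  obtain ⟨r, hinj, hr⟩ := roots_loc n G t ht hs
  obtain ⟨r', hinj', hr'⟩ := roots_loc n G t' ht' hs'
  have hmono := Roots_mono n t ht
  have hmono' := Roots_mono n t' ht'
  obtain ⟨i, hi⟩ := Roots_real n G hdeg hG r hinj (fun i => (hr i).2.2) z hz
  obtain ⟨i', hi'⟩ := Roots_real n G hdeg hG r' hinj' (fun i => (hr' i).2.2) z hz
  refine ⟨r i, hi, ?_⟩
  by_contra hcon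
  push Not at hcon
  obtain ⟨hc1, hc2⟩ := hcon
  have hxx : r i = r' i' := by
    have : (r i : ℂ) = (r' i' : ℂ) := by rw [← hi, ← hi']
    exact Complex.ofReal_injective this
  have hin := i.2
  have hin' := i'.2
  -- position of `i'`
  have key : ∀ k : Fin n, r' k ≤ θ2 → t (j - 1) < r' k → (k : ℕ) = j - 1 := by
    intro k hk1 hk2
    have hkn := k.2
    have h1 := (hr' k).1
    have h2 := (hr' k).2.1
    have ha : (k : ℕ) < j := by
      by_contra h
      have h3 := hmono' k hkn.le j (by omega)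
      linarith
    have hb : j - 1 ≤ (k : ℕ) := by
      by_contra h
      have h3 := hmono' (j - 1) (by omega) ((k : ℕ) + 1) (by omega)
      have h4 := heq (j - 1) (by omega)
      linarith
    omega
  have hstep : t (j - 1) < t j := by
    have := ht (j - 1) (by omega)
    rwa [Nat.sub_add_cancel hj] at this
  have hi'j : (i' : ℕ) = j - 1 := by
    apply key i'
    · rw [← hxx]; exact hc2
    · rw [← hxx]
      rw [e1] at hstep
      linarith
  -- the root of index `j - 1` of the first family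
  obtain ⟨y, hy⟩ : ∃ y : ℝ, y = r ⟨j - 1, by omega⟩ := ⟨_, rfl⟩
  have hy1 : t (j - 1) < y := by
    rw [hy]; exact (hr ⟨j - 1, by omega⟩).1
  have hy2 : y < θ1 := by
    have := (hr ⟨j - 1, by omega⟩).2.1
    rw [← hy] at this
    simp only [Nat.sub_add_cancel hj] at this
    rwa [e1] at this
  have hy3 : G.eval y = 0 := by
    rw [hy]; exact (hr ⟨j - 1, by omega⟩).2.2
  obtain ⟨k, hk⟩ := Roots_real n G hdeg hG r' hinj' (fun i => (hr' i).2.2) (y : ℂ)
    (Roots_aeval G y hy3)
  have hk' : y = r' k := Complex.ofReal_injective hk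
  have hkj : (k : ℕ) = j - 1 := by
    apply key k
    · rw [← hk']; linarith
    · rw [← hk']; exact hy1
  have : k = i' := Fin.ext (by omega)
  rw [this, ← hxx] at hk'
  linarith

end H97E3
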