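import Mathlib
import Pool.Agent.H97.E3.Consts

/-!
# Sign changes
-/

set_option autoImplicit false

namespace H97E3

open Polynomial Filter

/-- the test points of even type -/
noncomputable def tp0 (θ : ℝ) : ℕ → ℝ
  | 0 => -25
  | 1 => θ
  | 2 => 25
  | (j + 3) => 100 * ((j : ℝ) + 1)

/-- the test points -/
noncomputable def tp (l : ℕ) (θ : ℝ) (j : ℕ) : ℝ :=
  if l % 2 = 0 then tp0 θ j else if j = 0 then -100 else tp0 θ (j - 1)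

private theorem Signs_prod (c : ℕ → ℝ) (h : ℕ) (t : ℝ) (h1 : ∀ i : ℕ, i < h → c i < t)
    (h2 : ∀ i : ℕ, h ≤ i → t < c i) (k : ℕ) (hk : h ≤ k) :
    0 < (-1 : ℝ) ^ (k - h) * ∏ i ∈ Finset.range k, (t - c i) := by
  induction k, hk using Nat.le_induction with
  | base =>
    rw [Nat.sub_self, pow_zero, one_mul]
    apply Finset.prod_pos
    intro i hi
    exact sub_pos.2 (h1 i (Finset.mem_range.1 hi))
  | succ k hk ih =>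
    rw [Finset.prod_range_succ]
    have e : k + 1 - h = (k - h) + 1 := by omega
    rw [e, pow_succ]
    have h3 : 0 < c k - t := sub_pos.2 (h2 k hk)
    have h4 := mul_pos ih h3
    linarith

theorem Rl_sign (l h : ℕ) (hl : 1 ≤ l) (hh : h ≤ 2 * l - 1) (t : ℝ)
    (h1 : ∀ i : ℕ, i < h → 100 * ((i : ℝ) - ((l % 2 : ℕ) : ℝ)) + 50 < t)
    (h2 : ∀ i : ℕ, h ≤ i → t < 100 * ((i : ℝ) - ((l % 2 : ℕ) : ℝ)) + 50) :
    (-1 : ℝ) ^ h * aeval t (Rl l) < 0 := by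
  rw [Rl_aeval]
  have h3 := Signs_prod (fun i => 100 * ((i : ℝ) - ((l % 2 : ℕ) : ℝ)) + 50) h t h1 h2
    (2 * l - 1) hh
  have e1 : (-1 : ℝ) ^ h * (-1 : ℝ) ^ (2 * l - 1 - h) = -1 := by
    rw [← pow_add]
    apply Odd.neg_one_pow
    rw [Nat.odd_iff]
    omega
  have e2 : (-1 : ℝ) ^ (2 * l - 1 - h) * (-1 : ℝ) ^ (2 * l - 1 - h) = 1 := by
    rw [← mul_pow]
    norm_num
  have e3 : (-1 : ℝ) ^ h = - (-1 : ℝ) ^ (2 * l - 1 - h) := by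
    calc (-1 : ℝ) ^ h = (-1 : ℝ) ^ h * ((-1 : ℝ) ^ (2 * l - 1 - h) *
          (-1 : ℝ) ^ (2 * l - 1 - h)) := by rw [e2, mul_one]
      _ = ((-1 : ℝ) ^ h * (-1 : ℝ) ^ (2 * l - 1 - h)) * (-1 : ℝ) ^ (2 * l - 1 - h) := by ring
      _ = - (-1 : ℝ) ^ (2 * l - 1 - h) := by rw [e1]; ring
  rw [e3, neg_mul]
  exact neg_lt_zero.2 h3

private theorem Signs_quad (s m : ℤ) (hn : (4 * m - 2 * s + 109) ^ 2 - 432 * (1 - s) ^ 2 = 1)
    (hneg : 4 * m - 2 * s + 109 < 0) (θ : ℝ) (hθ : 4 * θ ^ 2 - 4 * θ - 107 = 0) :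
    θ ^ 2 - (s : ℝ) * θ + m < 0 := by
  have hn' : (4 * (m : ℝ) - 2 * s + 109) ^ 2 - 432 * (1 - (s : ℝ)) ^ 2 = 1 := by
    exact_mod_cast hn
  have hneg' : 4 * (m : ℝ) - 2 * s + 109 < 0 := by exact_mod_cast hneg
  by_contra hc
  push Not at hc
  set A : ℝ := 4 * (m : ℝ) - 2 * s + 109 with hA
  set B : ℝ := (2 - 2 * (s : ℝ)) * (2 * θ - 1) with hB
  have h1 : 4 * (θ ^ 2 - (s : ℝ) * θ + m) = A + B := by
    rw [hA, hB]
    linear_combination (1 : ℝ) * hθ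
  have h2 : B ^ 2 = A ^ 2 - 1 := by
    rw [hB]
    have : (2 * θ - 1) ^ 2 = 108 := by linear_combination hθ
    rw [mul_pow, this]
    linear_combination -hn'
  have h3 : -A ≤ B := by linarith
  have h4 : (-A) ^ 2 ≤ B ^ 2 := pow_le_pow_left₀ (by linarith) h3 2
  have h5 : (-A) ^ 2 = A ^ 2 := by ring
  linarith

theorem base_sign (l : ℕ) (E : ℤ[X]) (θ : ℝ) (hθ : 4 * θ ^ 2 - 4 * θ - 107 = 0) :
    0 < (-1 : ℝ) ^ (l + 1) * aeval θ (fp l E) := by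
  rw [fp_aeval, hθ]
  have h1 := Signs_quad s1 m1 n1 neg1 θ hθ
  have h2 := Signs_quad s2 m2 n2 neg2 θ hθ
  have h3 : 0 < -(θ ^ 2 - (s1 : ℝ) * θ + m1) * (-(θ ^ 2 - (s2 : ℝ) * θ + m2)) ^ l :=
    mul_pos (neg_pos.2 h1) (pow_pos (neg_pos.2 h2) l)
  have e : (-1 : ℝ) ^ (l + 1) * ((θ ^ 2 - (s1 : ℝ) * θ + m1) * (θ ^ 2 - (s2 : ℝ) * θ + m2) ^ l
      + 1457 * 0 * aeval θ E) =
      -(θ ^ 2 - (s1 : ℝ) * θ + m1) * (-(θ ^ 2 - (s2 : ℝ) * θ + m2)) ^ l := by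
    rw [neg_pow (θ ^ 2 - (s2 : ℝ) * θ + m2) l]
    ring
  rw [e]
  exact h3

end H97E3
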