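import Mathlib
import Pool.Agent.H76.EN.Signs
import Pool.Agent.H97.E3.Signs

/-!
# Sign changes, all test points
-/

set_option autoImplicit false

namespace H97E3

open Polynomial Filter

private theorem SignsB_tp0_indep (θ θ' : ℝ) (j : ℕ) (hj : j ≠ 1) : tp0 θ j = tp0 θ' j := by
  match j with
  | 0 => rfl
  | 1 => exact absurd rfl hj
  | 2 => rfl
  | (j + 3) => rfl

private theorem SignsB_tp_indep (l : ℕ) (θ θ' : ℝ) (j : ℕ) (hj : j ≠ 1 + l % 2) :
    tp l θ j = tp l θ' j := by
  rw [tp, tp]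
  by_cases h : l % 2 = 0
  · rw [if_pos h, if_pos h]
    exact SignsB_tp0_indep θ θ' j (by omega)
  · rw [if_neg h, if_neg h]
    by_cases h0 : j = 0
    · rw [if_pos h0, if_pos h0]
    · rw [if_neg h0, if_neg h0]
      exact SignsB_tp0_indep θ θ' (j - 1) (by omega)

private theorem SignsB_tp_theta (l : ℕ) (θ : ℝ) : tp l θ (1 + l % 2) = θ := by
  rw [tp]
  by_cases h : l % 2 = 0
  · rw [if_pos h, h]
    rfl
  · have h1 : l % 2 = 1 := by omega
    rw [if_neg h, h1, if_neg (by norm_num)]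
    rfl

private theorem SignsB_tp0_lt (θ : ℝ) (h1 : -25 < θ) (h2 : θ < 25) (i : ℕ) :
    tp0 θ i < tp0 θ (i + 1) := by
  match i with
  | 0 => exact h1
  | 1 => exact h2
  | 2 =>
    have e1 : tp0 θ 2 = 25 := rfl
    have e2 : tp0 θ (2 + 1) = 100 * (((0 : ℕ) : ℝ) + 1) := rfl
    rw [e1, e2]
    norm_num
  | (j + 3) =>
    have e1 : tp0 θ (j + 3) = 100 * ((j : ℝ) + 1) := rfl
    have e2 : tp0 θ (j + 3 + 1) = 100 * (((j + 1 : ℕ) : ℝ) + 1) := rfl
    rw [e1, e2]
    push_cast
    linarith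

private theorem SignsB_tp_lt (l : ℕ) (θ : ℝ) (h1 : -25 < θ) (h2 : θ < 25) (i : ℕ) :
    tp l θ i < tp l θ (i + 1) := by
  rw [tp, tp]
  by_cases h : l % 2 = 0
  · rw [if_pos h, if_pos h]
    exact SignsB_tp0_lt θ h1 h2 i
  · rw [if_neg h, if_neg h, if_neg (Nat.succ_ne_zero i), Nat.add_sub_cancel]
    by_cases h0 : i = 0
    · rw [if_pos h0, h0]
      have e1 : tp0 θ 0 = -25 := rfl
      rw [e1]
      norm_num
    · rw [if_neg h0]
      have h3 := SignsB_tp0_lt θ h1 h2 (i - 1)
      rw [Nat.sub_add_cancel (by omega)] at h3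
      exact h3

private theorem SignsB_bounds (θ : ℝ) (h : 4 * θ ^ 2 - 4 * θ - 107 = 0) : -25 < θ ∧ θ < 25 := by
  constructor
  · by_contra hc
    push Not at hc
    nlinarith
  · by_contra hc
    push Not at hc
    nlinarith

private theorem SignsB_comb (e q r : ℝ) (h1 : e * r < 0) (h2 : 0 < q) : 0 < e * (q * -r) := by
  have h3 := mul_pos h2 (neg_pos.2 h1)
  have e1 : e * (q * -r) = q * -(e * r) := by ring
  rw [e1]
  exact h3

private theorem SignsB_par (a h : ℕ) (hp : a % 2 = h % 2) : (-1 : ℝ) ^ a = (-1 : ℝ) ^ h := by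
  rw [neg_one_pow_eq_pow_mod_two, hp, ← neg_one_pow_eq_pow_mod_two]

private theorem SignsB_S (l : ℕ) (hl : 1 ≤ l) (j : ℕ) (hj : j ≤ 2 * l + 1) (hne : j ≠ 1 + l % 2) :
    0 < (-1 : ℝ) ^ (2 * l + 2 - j) * ((4 * (tp l 0 j) ^ 2 - 4 * (tp l 0 j) - 107)
      * -aeval (tp l 0 j) (Rl l)) := by
  have key : ∀ (T : ℝ) (h : ℕ), tp l 0 j = T → h ≤ 2 * l - 1 → (2 * l + 2 - j) % 2 = h % 2 →
      (∀ i : ℕ, i < h → 100 * ((i : ℝ) - ((l % 2 : ℕ) : ℝ)) + 50 < T) →
      (∀ i : ℕ, h ≤ i → T < 100 * ((i : ℝ) - ((l % 2 : ℕ) : ℝ)) + 50) →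
      0 < 4 * T ^ 2 - 4 * T - 107 →
      0 < (-1 : ℝ) ^ (2 * l + 2 - j) * ((4 * (tp l 0 j) ^ 2 - 4 * (tp l 0 j) - 107)
        * -aeval (tp l 0 j) (Rl l)) := by
    intro T h e1 e2 e3 e4 e5 e6
    rw [e1, SignsB_par _ _ e3]
    exact SignsB_comb _ _ _ (Rl_sign l h hl e2 T e4 e5) e6
  by_cases h : l % 2 = 0
  · rw [h] at hne
    have ht : tp l 0 j = tp0 0 j := by rw [tp, if_pos h]
    match j, hj, hne, ht, key with
    | 0, hj, hne, ht, key =>
      refine key (-25) 0 (ht.trans rfl) (by omega) (by omega) ?_ ?_ (by norm_num)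
      · intro i hi; exact absurd hi (Nat.not_lt_zero i)
      · intro i _
        rw [h]
        have : (0 : ℝ) ≤ i := Nat.cast_nonneg i
        push_cast
        linarith
    | 1, hj, hne, ht, key => exact absurd rfl hne
    | 2, hj, hne, ht, key =>
      refine key 25 0 (ht.trans rfl) (by omega) (by omega) ?_ ?_ (by norm_num)
      · intro i hi; exact absurd hi (Nat.not_lt_zero i)
      · intro i _
        rw [h]
        have : (0 : ℝ) ≤ i := Nat.cast_nonneg i
        push_cast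
        linarith
    | (m + 3), hj, hne, ht, key =>
      have hm : (0 : ℝ) ≤ m := Nat.cast_nonneg m
      refine key (100 * ((m : ℝ) + 1)) (m + 1) (ht.trans rfl) (by omega) (by omega) ?_ ?_ ?_
      · intro i hi
        rw [h]
        have : (i : ℝ) ≤ m := by exact_mod_cast Nat.lt_succ_iff.1 hi
        push_cast
        linarith
      · intro i hi
        rw [h]
        have : (m : ℝ) + 1 ≤ i := by exact_mod_cast hi
        push_cast
        linarith
      · nlinarith
  · have h1 : l % 2 = 1 := by omega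
    rw [h1] at hne
    match j, hj, hne, key with
    | 0, hj, hne, key =>
      have ht : tp l 0 0 = -100 := by rw [tp, if_neg h, if_pos rfl]
      refine key (-100) 0 ht (by omega) (by omega) ?_ ?_ (by norm_num)
      · intro i hi; exact absurd hi (Nat.not_lt_zero i)
      · intro i _
        rw [h1]
        have : (0 : ℝ) ≤ i := Nat.cast_nonneg i
        push_cast
        linarith
    | 1, hj, hne, key =>
      have ht : tp l 0 1 = -25 := by
        rw [tp, if_neg h, if_neg (by norm_num)]; rfl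
      refine key (-25) 1 ht (by omega) (by omega) ?_ ?_ (by norm_num)
      · intro i hi
        rw [h1]
        have : i = 0 := by omega
        rw [this]
        norm_num
      · intro i hi
        rw [h1]
        have : (1 : ℝ) ≤ i := by exact_mod_cast hi
        push_cast
        linarith
    | 2, hj, hne, key => exact absurd rfl hne
    | 3, hj, hne, key =>
      have ht : tp l 0 3 = 25 := by
        rw [tp, if_neg h, if_neg (by norm_num)]; rfl
      refine key 25 1 ht (by omega) (by omega) ?_ ?_ (by norm_num)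
      · intro i hi
        rw [h1]
        have : i = 0 := by omega
        rw [this]
        norm_num
      · intro i hi
        rw [h1]
        have : (1 : ℝ) ≤ i := by exact_mod_cast hi
        push_cast
        linarith
    | (m + 4), hj, hne, key =>
      have ht : tp l 0 (m + 4) = 100 * ((m : ℝ) + 1) := by
        rw [tp, if_neg h, if_neg (by omega)]; rfl
      have hm : (0 : ℝ) ≤ m := Nat.cast_nonneg m
      refine key (100 * ((m : ℝ) + 1)) (m + 2) ht (by omega) (by omega) ?_ ?_ ?_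
      · intro i hi
        rw [h1]
        have : (i : ℝ) ≤ m + 1 := by exact_mod_cast Nat.lt_succ_iff.1 hi
        push_cast
        linarith
      · intro i hi
        rw [h1]
        have : (m : ℝ) + 2 ≤ i := by exact_mod_cast hi
        push_cast
        linarith
      · nlinarith

/-- one `N` for all `θ`; only the values at the index `1 + l % 2` differ -/
theorem exists_real (l : ℕ) (hl : 1 ≤ l) (F0 : ℤ[X]) (hF0 : F0.natDegree ≤ 2 * l - 1) (M : ℤ)
    (hM : 0 < M) :
    ∃ (N : ℤ) (x : ℝ), ∀ θ : ℝ, 4 * θ ^ 2 - 4 * θ - 107 = 0 →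
      (∀ i, i < 2 * l + 2 → (if i ≤ 2 * l + 1 then tp l θ i else x)
        < (if i + 1 ≤ 2 * l + 1 then tp l θ (i + 1) else x)) ∧
      ∀ j, j ≤ 2 * l + 2 → 0 < (-1 : ℝ) ^ (2 * l + 2 - j)
        * ((fp l (C 7 * (F0 - C (M * N) * Rl l))).map (algebraMap ℤ ℝ)).eval
          (if j ≤ 2 * l + 1 then tp l θ j else x) := by
  have hM' : (0 : ℝ) < M := by exact_mod_cast hM
  have hval : ∀ (N : ℕ) (t : ℝ),
      aeval t (fp l (C 7 * (F0 - C (M * (N : ℤ)) * Rl l)))
      = ((t ^ 2 - (s1 : ℝ) * t + m1) * (t ^ 2 - (s2 : ℝ) * t + m2) ^ l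
        + 1457 * (4 * t ^ 2 - 4 * t - 107) * (7 * aeval t F0))
        + (N : ℝ) * ((1457 * 7 * M) * ((4 * t ^ 2 - 4 * t - 107) * -aeval t (Rl l))) := by
    intro N t
    rw [fp_aeval, map_mul, map_sub, map_mul, aeval_C, aeval_C, eq_intCast, eq_intCast]
    push_cast
    ring
  have hev : ∀ j ∈ Finset.range (2 * l + 2), ∀ᶠ N : ℕ in atTop, j ≠ 1 + l % 2 →
      0 < (-1 : ℝ) ^ (2 * l + 2 - j)
        * aeval (tp l 0 j) (fp l (C 7 * (F0 - C (M * (N : ℤ)) * Rl l))) := by
    intro j hj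
    by_cases hne : j = 1 + l % 2
    · exact Eventually.of_forall (fun N h => absurd hne h)
    have hj' : j ≤ 2 * l + 1 := by have := Finset.mem_range.1 hj; omega
    have hS := SignsB_S l hl j hj' hne
    have hb : 0 < (1457 * 7 * (M : ℝ)) * ((-1 : ℝ) ^ (2 * l + 2 - j)
        * ((4 * (tp l 0 j) ^ 2 - 4 * (tp l 0 j) - 107) * -aeval (tp l 0 j) (Rl l))) := by
      apply mul_pos _ hS
      positivity
    apply (H76EN.ev_pos ((-1 : ℝ) ^ (2 * l + 2 - j) * (((((tp l 0 j)) ^ 2 - (s1 : ℝ) * (tp l 0 j) + m1)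
      * ((tp l 0 j) ^ 2 - (s2 : ℝ) * (tp l 0 j) + m2) ^ l
        + 1457 * (4 * (tp l 0 j) ^ 2 - 4 * (tp l 0 j) - 107) * (7 * aeval (tp l 0 j) F0)))) _ hb).mono
    intro N hN _
    rw [hval]
    linarith
  obtain ⟨N, hN⟩ := ((Finset.range (2 * l + 2)).eventually_all.2 hev).exists
  -- the last point
  obtain ⟨f, hf⟩ : ∃ f, f = fp l (C 7 * (F0 - C (M * (N : ℤ)) * Rl l)) := ⟨_, rfl⟩
  have hdegE := natDegree_E l F0 hF0 (M * (N : ℤ))
  have hmon : f.Monic := by rw [hf]; exact fp_monic l hl _ hdegE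
  have hdeg : f.natDegree = 2 * l + 2 := by rw [hf]; exact fp_natDegree l hl _ hdegE
  have hmonR : (f.map (algebraMap ℤ ℝ)).Monic := hmon.map _
  have htend : Tendsto (fun x : ℝ => (f.map (algebraMap ℤ ℝ)).eval x) atTop atTop := by
    apply tendsto_atTop_of_leadingCoeff_nonneg
    · rw [degree_eq_natDegree hmonR.ne_zero, hmon.natDegree_map, hdeg]
      exact_mod_cast (by omega : 0 < 2 * l + 2)
    · rw [hmonR.leadingCoeff]; exact zero_le_one
  obtain ⟨x, hx1, hx2⟩ := ((htend.eventually_gt_atTop 0).and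
    (eventually_gt_atTop (tp l 0 (2 * l + 1)))).exists
  refine ⟨N, x, ?_⟩
  intro θ hθ
  obtain ⟨hb1, hb2⟩ := SignsB_bounds θ hθ
  constructor
  · intro i hi
    rcases Nat.lt_or_ge i (2 * l + 1) with h | h
    · rw [if_pos (by omega), if_pos (by omega)]
      exact SignsB_tp_lt l θ hb1 hb2 i
    · have hi' : i = 2 * l + 1 := by omega
      rw [if_pos (by omega), if_neg (by omega), hi',
        SignsB_tp_indep l θ 0 (2 * l + 1) (by omega)]
      exact hx2
  · intro j hj
    rcases Nat.lt_or_ge j (2 * l + 2) with h | h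
    · rw [if_pos (by omega), eval_map_algebraMap]
      by_cases hne : j = 1 + l % 2
      · rw [hne, SignsB_tp_theta, SignsB_par (2 * l + 2 - (1 + l % 2)) (l + 1) (by omega)]
        exact base_sign l _ θ hθ
      · rw [SignsB_tp_indep l θ 0 j hne]
        exact hN j (Finset.mem_range.2 h) hne
    · have hj' : j = 2 * l + 2 := by omega
      rw [if_neg (by omega), hj', Nat.sub_self, pow_zero, one_mul, ← hf]
      exact hx1

end H97E3
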