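import Mathlib
import Pool.Agent.H76.EN.Fld
import Pool.Agent.H76.EN.Real
import Pool.Agent.H76.EN.Ram
import Pool.Agent.H76.EN.Padic
import Pool.Agent.H76.EN.Prim
import Pool.Agent.H97.E3.Arith
import Pool.Agent.H97.E3.ArithB
import Pool.Agent.H97.E3.Coef
import Pool.Agent.H97.E3.SignsB
import Pool.Agent.H97.E3.Roots

/-!
# The fields of degree `2 l + 2`
-/

set_option autoImplicit false

namespace H97E3

open Polynomial NumberField

theorem Main_ne_seven : ((5 : ℤ) : ZMod 7) ≠ ((3 : ℤ) : ZMod 7) := by decide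

theorem Main_tp_special (l : ℕ) (θ : ℝ) : tp l θ (1 + l % 2) = θ := by
  rcases Nat.mod_two_eq_zero_or_one l with h | h
  · rw [tp, if_pos h, h]
    rfl
  · rw [tp, h, if_neg (by norm_num), if_neg (by norm_num)]
    rfl

theorem Main_tp0_ne (θ θ' : ℝ) (i : ℕ) (hi : i ≠ 1) : tp0 θ i = tp0 θ' i := by
  rcases i with _ | _ | _ | j
  · rfl
  · exact absurd rfl hi
  · rfl
  · rfl

theorem Main_tp_ne (l : ℕ) (θ θ' : ℝ) (i : ℕ) (hi : i ≠ 1 + l % 2) : tp l θ i = tp l θ' i := by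
  rw [tp, tp]
  split_ifs with h1 h2
  · exact Main_tp0_ne θ θ' i (by omega)
  · rfl
  · exact Main_tp0_ne θ θ' (i - 1) (by omega)

/-- the complex roots are real and outside the interval -/
theorem Main_roots (l : ℕ) (hl : 1 ≤ l) (f : ℤ[X]) (hmon : f.Monic)
    (hdeg : f.natDegree = 2 * l + 2) (x : ℝ)
    (H : ∀ θ : ℝ, 4 * θ ^ 2 - 4 * θ - 107 = 0 →
      (∀ i, i < 2 * l + 2 → (if i ≤ 2 * l + 1 then tp l θ i else x)
        < (if i + 1 ≤ 2 * l + 1 then tp l θ (i + 1) else x)) ∧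
      ∀ j, j ≤ 2 * l + 2 → 0 < (-1 : ℝ) ^ (2 * l + 2 - j)
        * (f.map (algebraMap ℤ ℝ)).eval (if j ≤ 2 * l + 1 then tp l θ j else x))
    (w : ℂ) (hw : aeval w f = 0) :
    ∃ y : ℝ, w = (y : ℂ) ∧ 0 < 4 * y ^ 2 - 4 * y - 107 := by
  have hs : (√108 : ℝ) ^ 2 = 108 := Real.sq_sqrt (by norm_num)
  have hs0 : (0 : ℝ) < √108 := Real.sqrt_pos.2 (by norm_num)
  obtain ⟨θ1, h1⟩ : ∃ θ1 : ℝ, θ1 = (1 - √108) / 2 := ⟨_, rfl⟩
  obtain ⟨θ2, h2⟩ : ∃ θ2 : ℝ, θ2 = (1 + √108) / 2 := ⟨_, rfl⟩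
  obtain ⟨a1, b1⟩ := H θ1 (by rw [h1]; nlinarith)
  obtain ⟨a2, b2⟩ := H θ2 (by rw [h2]; nlinarith)
  have hmod : l % 2 < 2 := Nat.mod_lt _ (by norm_num)
  have hle : 1 + l % 2 ≤ 2 * l + 1 := by omega
  obtain ⟨y, hy, hy2⟩ := roots_pos (2 * l + 2) (f.map (algebraMap ℤ ℝ))
    (by rw [hmon.natDegree_map, hdeg]) (hmon.map _).ne_zero θ1 θ2 (by rw [h1, h2]; linarith)
    (fun i => if i ≤ 2 * l + 1 then tp l θ1 i else x)
    (fun i => if i ≤ 2 * l + 1 then tp l θ2 i else x) a1 b1 a2 b2 (1 + l % 2) (by omega)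
    (by omega) (by rw [if_pos hle]; exact Main_tp_special l θ1)
    (by rw [if_pos hle]; exact Main_tp_special l θ2)
    (by
      intro i hi
      split_ifs with h
      · exact Main_tp_ne l θ1 θ2 i hi
      · rfl)
    w (by rw [aeval_map_algebraMap]; exact hw)
  refine ⟨y, hy, ?_⟩
  rcases hy2 with h | h
  · rw [h1] at h
    nlinarith [mul_pos (show (0 : ℝ) < (1 - √108) / 2 - y by linarith)
      (show (0 : ℝ) < (1 - √108) / 2 - y + √108 by linarith)]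
  · rw [h2] at h
    nlinarith [mul_pos (show (0 : ℝ) < y - (1 + √108) / 2 by linarith)
      (show (0 : ℝ) < y - (1 + √108) / 2 + √108 by linarith)]

theorem Main_data (l : ℕ) (E : ℤ[X]) (K : Type) [Field K] [NumberField K]
    (pb : PowerBasis ℚ K)
    (hf : minpoly ℚ pb.gen = (fp l E).map (Int.castRingHom ℚ))
    (β : 𝓞 K) (hβ : (β : K) = pb.gen) (hrel : aeval β (fp l E) = 0)
    (hroots : ∀ w : ℂ, aeval w (fp l E) = 0 →
      ∃ y : ℝ, w = (y : ℂ) ∧ 0 < 4 * y ^ 2 - 4 * y - 107) : Data K := by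
  have : Fact (Nat.Prime 31) := ⟨by norm_num⟩
  have : Fact (Nat.Prime 47) := ⟨by norm_num⟩
  refine ⟨β, fp_unit l E β hrel, ?_, ?_, ?_, ?_⟩
  · intro τ
    obtain ⟨φ, hφ⟩ : ∃ φ : 𝓞 K →+* ℂ, φ = (Complex.ofRealHom.comp τ).comp (algebraMap (𝓞 K) K) :=
      ⟨_, rfl⟩
    have h1 : aeval (φ β) (fp l E) = 0 := by
      have h3 := aeval_algHom_apply φ.toIntAlgHom β (fp l E)
      rw [hrel, map_zero] at h3
      exact h3
    obtain ⟨y, hy, hy2⟩ := hroots _ h1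
    have h4 : ((τ (β : K) : ℝ) : ℂ) = (y : ℂ) := by
      rw [← hy, hφ]
      rfl
    have h5 : τ (β : K) = y := by exact_mod_cast h4
    rw [h5]
    exact hy2
  · obtain ⟨a, b⟩ := fp_root31 l E
    obtain ⟨φ, hφ⟩ := H76EN.hom_of_simple_root 31 K pb (fp l E) hf β hβ 7 a b
    exact ⟨φ, by rw [hφ]; rfl⟩
  · obtain ⟨a, b⟩ := fp_root47 l E 7 (Or.inl rfl)
    obtain ⟨φ, hφ⟩ := H76EN.hom_of_simple_root 47 K pb (fp l E) hf β hβ 7 a b
    exact ⟨φ, by rw [hφ]; rfl⟩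
  · obtain ⟨a, b⟩ := fp_root47 l E 25 (Or.inr rfl)
    obtain ⟨φ, hφ⟩ := H76EN.hom_of_simple_root 47 K pb (fp l E) hf β hβ 25 a b
    exact ⟨φ, by rw [hφ]; rfl⟩

theorem main (l : ℕ) (hl : 1 ≤ l) (B : ℕ) :
    ∃ (K : Type) (_ : Field K) (_ : NumberField K),
      Module.finrank ℚ K = 2 * l + 2 ∧ IsTotallyReal K ∧
      (∀ L : IntermediateField ℚ K, L = ⊥ ∨ L = ⊤) ∧ (B : ℤ) < |discr K| ∧ Data K := by
  have : Fact (Nat.Prime 7) := ⟨by norm_num⟩
  obtain ⟨q, hqB, hq⟩ := Nat.exists_infinite_primes (B + 1458)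
  have hq7 : 1457 < q := by omega
  obtain ⟨t0, t1, ht⟩ := exists_t l q hq hq7
  obtain ⟨N, x, hx⟩ := exists_real l hl (Flin t0 t1) (Flin_natDegree l hl t0 t1)
    (7 * (q : ℤ) ^ 2) (by have := hq.pos; positivity)
  obtain ⟨hq0, hq02, hq1⟩ := ht N
  obtain ⟨E, hE⟩ : ∃ E, E = (C 7 * (Flin t0 t1 - C (7 * (q : ℤ) ^ 2 * N) * Rl l) : ℤ[X]) :=
    ⟨_, rfl⟩
  have hff : ff l q t0 t1 N = fp l E := by rw [ff, hE]
  rw [hff] at hq0 hq02 hq1
  have hdegE : E.natDegree ≤ 2 * l - 1 := by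
    rw [hE]; exact natDegree_E l _ (Flin_natDegree l hl t0 t1) _
  rw [← hE] at hx
  have hmon := fp_monic l hl E hdegE
  have hdeg := fp_natDegree l hl E hdegE
  have hroots := Main_roots l hl (fp l E) hmon hdeg x hx
  -- the local factorisation at 7
  have hmod : (fp l E).map (Int.castRingHom (ZMod 7))
      = (X - C ((5 : ℤ) : ZMod 7)) * (X - C ((3 : ℤ) : ZMod 7)) ^ (2 * l + 1) := by
    rw [hE]; exact fp_mod_seven l _
  have hF : ¬ ((7 : ℕ) : ℤ) ∣ (Flin t0 t1 - C (7 * (q : ℤ) ^ 2 * N) * Rl l).eval 3 := by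
    intro hd
    have e : (Flin t0 t1 - C (7 * (q : ℤ) ^ 2 * N) * Rl l).eval 3
        = 1 + ((7 : ℕ) : ℤ) * (t0 + t1 * 3 - (q : ℤ) ^ 2 * N * (Rl l).eval 3) := by
      rw [eval_sub, eval_mul, eval_C, Flin, eval_add, eval_C, eval_mul, eval_C, eval_X]
      push_cast; ring
    rw [e] at hd
    have := (dvd_add_left (Dvd.intro _ rfl)).1 hd
    norm_num at this
  have h2 : ¬ (((7 : ℕ) : ℤ) ^ 2 ∣ (fp l E).eval 3) := by
    rw [hE]; exact fp_mod_seven2 l hl _ hF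
  obtain ⟨z, h, hz, hhmon, hhdeg, hhirr, hh⟩ := H76EN.local_factor 7 (fp l E) (2 * l + 1)
    (by omega) hmon hdeg 5 3 hmod Main_ne_seven h2
  have hirr := H76EN.irred_rat 7 (fp l E) (2 * l + 1) (by omega) hmon hdeg z h hhmon hhdeg hhirr hh
    (fp_no_root l E)
  obtain ⟨K, hK1, hK2, pb, hf⟩ := H76EN.exists_field (fp l E) hmon hirr
  refine ⟨K, hK1, hK2, ?_, ?_, ?_, ?_, ?_⟩
  · rw [pb.finrank, ← pb.natDegree_minpoly, hf, hmon.natDegree_map, hdeg]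
  · -- totally real
    apply H76EN.totallyReal_of K pb (fp l E) hf
    intro w hw
    obtain ⟨y, hy, -⟩ := hroots w hw
    exact ⟨y, hy⟩
  · intro L
    exact H76EN.no_intermediate 7 (fp l E) (2 * l + 1) (by omega) hmon hdeg z h hz hhmon hhdeg
      hhirr hh K pb hf L
  all_goals
    have hroot : aeval pb.gen (fp l E) = 0 := by
      have h1 : aeval pb.gen ((fp l E).map (Int.castRingHom ℚ)) = 0 := by
        rw [← hf]; exact minpoly.aeval _ _
      have := aeval_map_algebraMap (R := ℤ) ℚ pb.gen (fp l E)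
      rw [← this]
      exact h1
    have hint : IsIntegral ℤ pb.gen := ⟨fp l E, hmon, hroot⟩
    obtain ⟨β, hβ⟩ : ∃ β : 𝓞 K, (β : K) = pb.gen := ⟨⟨pb.gen, hint⟩, rfl⟩
  · have hd := H76EN.dvd_discr K pb (fp l E) hf β hβ q hq hq0 hq02 hq1
    have h0 : discr K ≠ 0 := discr_ne_zero K
    have h1 : (q : ℤ) ≤ |discr K| := by
      apply Int.le_of_dvd (abs_pos.2 h0)
      exact (dvd_abs _ _).2 hd
    have h3 : ((B : ℤ) + 1458) ≤ q := by exact_mod_cast hqB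
    linarith
  · apply Main_data l E K pb hf β hβ _ hroots
    apply RingOfIntegers.ext
    have h3 := aeval_algebraMap_apply K β (fp l E)
    have h4 : aeval (algebraMap (𝓞 K) K β) (fp l E) = 0 := by
      have : algebraMap (𝓞 K) K β = pb.gen := hβ
      rw [this]; exact hroot
    exact (h3.symm.trans h4).trans (map_zero (algebraMap (𝓞 K) K)).symm

end H97E3
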