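import Mathlib

/-!
# The Pell sequence `x_n + y_n √432 = (1351 + 65 √432)^n`
-/

set_option autoImplicit false

namespace H97E3

/-- `x_n + y_n √432 = (1351 + 65 √432)^n` -/
def pell : ℕ → ℤ × ℤ
  | 0 => (1, 0)
  | n + 1 => (1351 * (pell n).1 + 432 * 65 * (pell n).2,
      65 * (pell n).1 + 1351 * (pell n).2)

theorem pell_succ (n : ℕ) : pell (n + 1) = (1351 * (pell n).1 + 432 * 65 * (pell n).2,
    65 * (pell n).1 + 1351 * (pell n).2) := rfl

theorem pell_norm (n : ℕ) : (pell n).1 ^ 2 - 432 * (pell n).2 ^ 2 = 1 := by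
  induction n with
  | zero => simp [pell]
  | succ n ih =>
    rw [pell_succ]
    dsimp only
    linear_combination ih

theorem pell_pos (n : ℕ) : 1 ≤ (pell n).1 ∧ 0 ≤ (pell n).2 := by
  induction n with
  | zero => simp [pell]
  | succ n ih =>
    rw [pell_succ]
    dsimp only
    constructor <;> linarith [ih.1, ih.2]

theorem pell_big (n : ℕ) : 1351 ≤ (pell (n + 1)).1 := by
  rw [pell_succ]
  dsimp only
  linarith [(pell_pos n).1, (pell_pos n).2]

theorem Pell_four_aux (n : ℕ) : (4 : ℤ) ∣ (pell n).1 + 2 * (pell n).2 - 1 ∧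
    (4 : ℤ) ∣ 2 * ((pell n).1 - 1) := by
  induction n with
  | zero => simp [pell]
  | succ n ih =>
    rw [pell_succ]
    dsimp only
    obtain ⟨h1, h2⟩ := ih
    constructor <;> omega

theorem pell_four (n : ℕ) : (4 : ℤ) ∣ (pell n).1 + 2 * (pell n).2 + 107 := by
  have h := (Pell_four_aux n).1
  omega

/-- the sequence modulo 31 -/
def Pell_z31 : ℕ → ZMod 31 × ZMod 31
  | 0 => (1, 0)
  | n + 1 => (18 * (Pell_z31 n).1 + 25 * (Pell_z31 n).2, 3 * (Pell_z31 n).1 + 18 * (Pell_z31 n).2)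

theorem Pell_z31_succ (n : ℕ) : Pell_z31 (n + 1) =
    (18 * (Pell_z31 n).1 + 25 * (Pell_z31 n).2, 3 * (Pell_z31 n).1 + 18 * (Pell_z31 n).2) := rfl

theorem Pell_cast31 (n : ℕ) : (((pell n).1 : ZMod 31), ((pell n).2 : ZMod 31)) = Pell_z31 n := by
  induction n with
  | zero => simp [pell, Pell_z31]
  | succ n ih =>
    rw [Pell_z31_succ, ← ih, pell_succ]
    dsimp only
    push_cast
    have h1 : (1351 : ZMod 31) = 18 := by decide
    have h3 : (65 : ZMod 31) = 3 := by decide
    have h4 : (28080 : ZMod 31) = 25 := by decide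
    simp only [h1, h3, h4]

theorem Pell_z31_add (n : ℕ) : Pell_z31 (n + 16) = Pell_z31 n := by
  induction n with
  | zero => decide
  | succ n ih =>
    have : n + 1 + 16 = (n + 16) + 1 := by ring
    rw [this, Pell_z31_succ, ih, ← Pell_z31_succ]

theorem Pell_z31_mul (n k : ℕ) : Pell_z31 (n + 16 * k) = Pell_z31 n := by
  induction k with
  | zero => simp
  | succ k ih =>
    have : n + 16 * (k + 1) = (n + 16 * k) + 16 := by ring
    rw [this, Pell_z31_add, ih]

theorem Pell_z31_val (i : ℕ) : Pell_z31 (8 + 368 * i) = (30, 0) := by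
  have : 8 + 368 * i = 8 + 16 * (23 * i) := by ring
  rw [this, Pell_z31_mul]
  decide

theorem pell_mod31 (i : ℕ) : (31 : ℤ) ∣ (pell (8 + 368 * i)).1 - 30 ∧
    (31 : ℤ) ∣ (pell (8 + 368 * i)).2 := by
  have h := (Pell_cast31 (8 + 368 * i)).trans (Pell_z31_val i)
  have h1 := (Prod.ext_iff.1 h).1
  have h2 := (Prod.ext_iff.1 h).2
  dsimp only at h1 h2
  constructor
  · have := (ZMod.intCast_zmod_eq_zero_iff_dvd ((pell (8 + 368 * i)).1 - 30) 31).1
      (by push_cast; rw [h1]; decide)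
    exact_mod_cast this
  · have := (ZMod.intCast_zmod_eq_zero_iff_dvd ((pell (8 + 368 * i)).2) 31).1 h2
    exact_mod_cast this

/-- the sequence modulo 47 -/
def Pell_z47 : ℕ → ZMod 47 × ZMod 47
  | 0 => (1, 0)
  | n + 1 => (35 * (Pell_z47 n).1 + 21 * (Pell_z47 n).2, 18 * (Pell_z47 n).1 + 35 * (Pell_z47 n).2)

theorem Pell_z47_succ (n : ℕ) : Pell_z47 (n + 1) =
    (35 * (Pell_z47 n).1 + 21 * (Pell_z47 n).2, 18 * (Pell_z47 n).1 + 35 * (Pell_z47 n).2) := rfl

theorem Pell_cast47 (n : ℕ) : (((pell n).1 : ZMod 47), ((pell n).2 : ZMod 47)) = Pell_z47 n := by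
  induction n with
  | zero => simp [pell, Pell_z47]
  | succ n ih =>
    rw [Pell_z47_succ, ← ih, pell_succ]
    dsimp only
    push_cast
    have h1 : (1351 : ZMod 47) = 35 := by decide
    have h3 : (65 : ZMod 47) = 18 := by decide
    have h4 : (28080 : ZMod 47) = 21 := by decide
    simp only [h1, h3, h4]

theorem Pell_z47_add (n : ℕ) : Pell_z47 (n + 23) = Pell_z47 n := by
  induction n with
  | zero => decide
  | succ n ih =>
    have : n + 1 + 23 = (n + 23) + 1 := by ring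
    rw [this, Pell_z47_succ, ih, ← Pell_z47_succ]

theorem Pell_z47_mul (n k : ℕ) : Pell_z47 (n + 23 * k) = Pell_z47 n := by
  induction k with
  | zero => simp
  | succ k ih =>
    have : n + 23 * (k + 1) = (n + 23 * k) + 23 := by ring
    rw [this, Pell_z47_add, ih]

theorem Pell_z47_val (i : ℕ) : Pell_z47 (8 + 368 * i) = (7, 16) := by
  have : 8 + 368 * i = 8 + 23 * (16 * i) := by ring
  rw [this, Pell_z47_mul]
  decide

theorem pell_mod47 (i : ℕ) : (47 : ℤ) ∣ (pell (8 + 368 * i)).1 - 7 ∧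
    (47 : ℤ) ∣ (pell (8 + 368 * i)).2 - 16 := by
  have h := (Pell_cast47 (8 + 368 * i)).trans (Pell_z47_val i)
  have h1 := (Prod.ext_iff.1 h).1
  have h2 := (Prod.ext_iff.1 h).2
  dsimp only at h1 h2
  constructor
  · have := (ZMod.intCast_zmod_eq_zero_iff_dvd ((pell (8 + 368 * i)).1 - 7) 47).1
      (by push_cast; rw [h1]; decide)
    exact_mod_cast this
  · have := (ZMod.intCast_zmod_eq_zero_iff_dvd ((pell (8 + 368 * i)).2 - 16) 47).1
      (by push_cast; rw [h2]; decide)
    exact_mod_cast this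

/-- `√432` -/
noncomputable def th : ℝ := Real.sqrt 432

theorem th_sq : th ^ 2 = 432 := Real.sq_sqrt (by norm_num)

theorem th_pos : 0 < th := Real.sqrt_pos.2 (by norm_num)

/-- `1351 + 65 √432` -/
noncomputable def al : ℝ := 1351 + 65 * th

theorem al_inv : al * (1351 - 65 * th) = 1 := by
  rw [al]
  linear_combination (-(65 : ℝ) ^ 2) * th_sq

theorem al_big : 1000 ≤ al := by
  rw [al]
  have := th_pos
  linarith

theorem pell_real (n : ℕ) : ((pell n).1 : ℝ) + (pell n).2 * th = al ^ n := by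
  induction n with
  | zero => simp [pell]
  | succ n ih =>
    rw [pow_succ, ← ih, pell_succ, al]
    push_cast
    linear_combination (-(65 : ℝ) * (pell n).2) * th_sq

theorem pell_real' (n : ℕ) : (((pell n).1 : ℝ) - (pell n).2 * th) * al ^ n = 1 := by
  rw [← pell_real n]
  have h := pell_norm n
  have h' : ((pell n).1 : ℝ) ^ 2 - 432 * ((pell n).2 : ℝ) ^ 2 = 1 := by exact_mod_cast h
  linear_combination h' - ((pell n).2 : ℝ) ^ 2 * th_sq

theorem pell_two (n : ℕ) : 2 * ((pell n).1 : ℝ) = al ^ n + (al ^ n)⁻¹ := by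
  have h0 : al ^ n ≠ 0 := pow_ne_zero _ (by have := al_big; linarith)
  have h1 : ((pell n).1 : ℝ) - (pell n).2 * th = (al ^ n)⁻¹ := by
    rw [eq_comm]
    exact inv_eq_of_mul_eq_one_left (pell_real' n)
  rw [← h1, ← pell_real n]
  ring

end H97E3
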