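import Mathlib
import Pool.Agent.H97.E3.Pell
import Pool.Agent.H97.E3.Anal

/-!
# Squarefree parts of the discriminants are unbounded
-/

set_option autoImplicit false

namespace H97E3

/-- the discriminant `y² + x + 108` of the quadratic polynomial -/
def disc (i : ℕ) : ℤ := (pell (8 + 368 * i)).2 ^ 2 + (pell (8 + 368 * i)).1 + 108

theorem disc_eq (i : ℕ) :
    432 * disc i = ((pell (8 + 368 * i)).1 + 216) ^ 2 - 1 := by
  have h := pell_norm (8 + 368 * i)
  rw [disc]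
  linear_combination -h

theorem disc_pos (i : ℕ) : 0 < disc i := by
  have h1 := (pell_pos (8 + 368 * i)).1
  have h2 := sq_nonneg (pell (8 + 368 * i)).2
  rw [disc]
  linarith

theorem disc_factor (i : ℕ) : ∃ a b : ℕ, Squarefree a ∧ disc i = a * (b : ℤ) ^ 2 := by
  obtain ⟨a, b, hab, ha⟩ := Nat.sq_mul_squarefree (disc i).toNat
  refine ⟨a, b, ha, ?_⟩
  have h1 : ((disc i).toNat : ℤ) = disc i := Int.toNat_of_nonneg (disc_pos i).le
  rw [← h1, ← hab]
  push_cast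
  ring

/-- the basic equation of a term of the sequence -/
theorem term_eq (n : ℕ) (P : ℝ) (hP : P * al ^ n = 1) :
    2 * (((pell n).1 : ℝ) + 216) * P = 1 + P ^ 2 + 432 * P := by
  have h0 : al ^ n ≠ 0 := pow_ne_zero _ (by have := al_big; linarith)
  have h1 : P = (al ^ n)⁻¹ := eq_inv_of_mul_eq_one_left hP
  have h2 := pell_two n
  rw [← h1] at h2
  linear_combination P * h2 + hP

theorem unbounded (B : ℕ) : ∃ i a b : ℕ, B < a ∧ Squarefree a ∧ disc i = a * (b : ℤ) ^ 2 := by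
  by_contra hcon
  push Not at hcon
  choose a b hab using disc_factor
  have hle : ∀ i, a i ≤ B := by
    intro i
    by_contra h
    exact hcon i (a i) (b i) (not_le.1 h) (hab i).1 (hab i).2
  obtain ⟨t, ht, c, cc, hc⟩ := Combinatorics.exists_mono_homothetic_copy (M := ℕ)
    (Finset.range 4) (fun i => (⟨a i, Nat.lt_succ_of_le (hle i)⟩ : Fin (B + 1)))
  have hval : ∀ s, s < 4 → a (t * s + c) = cc := by
    intro s hs
    have := hc s (Finset.mem_range.2 hs)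
    have h2 := congrArg Fin.val this
    simpa using h2
  have halpos : 0 < al := by have := al_big; linarith
  have h0 : ∀ n : ℕ, al ^ n ≠ 0 := fun n => (pow_pos halpos n).ne'
  have hq : (1000000 : ℝ) ≤ al ^ (8 + 368 * c) := by
    calc (1000000 : ℝ) ≤ al ^ 2 := by have := al_big; nlinarith
      _ ≤ al ^ (8 + 368 * c) := pow_le_pow_right₀ (by have := al_big; linarith) (by omega)
  have hh : (10 : ℝ) ≤ al ^ (368 * t) := by
    calc (10 : ℝ) ≤ al := by have := al_big; linarith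
      _ = al ^ 1 := (pow_one al).symm
      _ ≤ al ^ (368 * t) := pow_le_pow_right₀ (by have := al_big; linarith) (by omega)
  obtain ⟨p, hp⟩ : ∃ p : ℝ, p = (al ^ (8 + 368 * c))⁻¹ := ⟨_, rfl⟩
  obtain ⟨k, hk⟩ : ∃ k : ℝ, k = (al ^ (368 * t))⁻¹ := ⟨_, rfl⟩
  have hp0 : 0 < p := by rw [hp]; exact inv_pos.2 (pow_pos halpos _)
  have hk0 : 0 < k := by rw [hk]; exact inv_pos.2 (pow_pos halpos _)
  have hpq : p * al ^ (8 + 368 * c) = 1 := by rw [hp]; exact inv_mul_cancel₀ (h0 _)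
  have hhk : al ^ (368 * t) * k = 1 := by rw [hk]; exact mul_inv_cancel₀ (h0 _)
  have hp2 : p * 1000000 ≤ 1 := by
    calc p * 1000000 ≤ p * al ^ (8 + 368 * c) := mul_le_mul_of_nonneg_left hq hp0.le
      _ = 1 := hpq
  have hk2 : k * 10 ≤ 1 := by
    calc k * 10 ≤ k * al ^ (368 * t) := mul_le_mul_of_nonneg_left hh hk0.le
      _ = 1 := by rw [mul_comm]; exact hhk
  have hP : ∀ s : ℕ, (p * k ^ s) * al ^ (8 + 368 * (t * s + c)) = 1 := by
    intro s
    have e : 8 + 368 * (t * s + c) = (8 + 368 * c) + (368 * t) * s := by ring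
    rw [e, pow_add, pow_mul al (368 * t) s]
    calc p * k ^ s * (al ^ (8 + 368 * c) * (al ^ (368 * t)) ^ s)
        = (p * al ^ (8 + 368 * c)) * (al ^ (368 * t) * k) ^ s := by rw [mul_pow]; ring
      _ = 1 := by rw [hpq, hhk, one_pow, one_mul]
  -- the common squarefree part
  have hcc : 1 ≤ (cc : ℕ) := by
    have h1 := hval 0 (by norm_num)
    have h2 := (hab (t * 0 + c)).1.ne_zero
    omega
  obtain ⟨ρ, hρ⟩ : ∃ ρ : ℝ, ρ = Real.sqrt (432 * ((cc : ℕ) : ℝ)) := ⟨_, rfl⟩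
  have hccR : (1 : ℝ) ≤ ((cc : ℕ) : ℝ) := by exact_mod_cast hcc
  have hρ2 : ρ ^ 2 = 432 * ((cc : ℕ) : ℝ) := by
    rw [hρ]; exact Real.sq_sqrt (by linarith)
  have hρ1 : 1 ≤ ρ := by
    rw [hρ]
    apply Real.le_sqrt_of_sq_le
    linarith
  have hY : ∀ s : ℕ, s < 4 →
      (((pell (8 + 368 * (t * s + c))).1 : ℝ) + 216) ^ 2 - (ρ * (b (t * s + c) : ℝ)) ^ 2 = 1 := by
    intro s hs
    have e1 := disc_eq (t * s + c)
    rw [(hab (t * s + c)).2, hval s hs] at e1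
    have e2 : (432 : ℝ) * (((cc : ℕ) : ℝ) * (b (t * s + c) : ℝ) ^ 2)
        = (((pell (8 + 368 * (t * s + c))).1 : ℝ) + 216) ^ 2 - 1 := by exact_mod_cast e1
    rw [mul_pow, hρ2]
    linear_combination -e2
  have hσ : ((2 * (pell (368 * t)).1 + 1 : ℤ) : ℝ) = al ^ (368 * t) + k + 1 := by
    push_cast
    rw [pell_two, hk]
  have q0 := term_eq (8 + 368 * (t * 0 + c)) (p * k ^ 0) (hP 0)
  have q1 := term_eq (8 + 368 * (t * 1 + c)) (p * k ^ 1) (hP 1)
  have q2 := term_eq (8 + 368 * (t * 2 + c)) (p * k ^ 2) (hP 2)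
  have q3 := term_eq (8 + 368 * (t * 3 + c)) (p * k ^ 3) (hP 3)
  rw [pow_zero, mul_one] at q0
  rw [pow_one] at q1
  exact no_ap p k (al ^ (368 * t)) ρ hp0 hp2 hk0 hk2 hhk hρ1
    (((pell (8 + 368 * (t * 0 + c))).1 : ℝ) + 216)
    (((pell (8 + 368 * (t * 1 + c))).1 : ℝ) + 216)
    (((pell (8 + 368 * (t * 2 + c))).1 : ℝ) + 216)
    (((pell (8 + 368 * (t * 3 + c))).1 : ℝ) + 216)
    (b (t * 0 + c)) (b (t * 1 + c)) (b (t * 2 + c)) (b (t * 3 + c))
    (2 * (pell (368 * t)).1 + 1)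
    ((b (t * 3 + c) : ℤ) - (2 * (pell (368 * t)).1 + 1) * (b (t * 2 + c) : ℤ)
      + (2 * (pell (368 * t)).1 + 1) * (b (t * 1 + c) : ℤ) - (b (t * 0 + c) : ℤ))
    hσ q0 q1 q2 q3 (Nat.cast_nonneg _) (Nat.cast_nonneg _) (Nat.cast_nonneg _)
    (Nat.cast_nonneg _) (hY 0 (by norm_num)) (hY 1 (by norm_num)) (hY 2 (by norm_num))
    (hY 3 (by norm_num)) (by push_cast; ring)

end H97E3
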