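import Mathlib
import Pool.Agent.H76.ES.Hom
import Pool.Agent.H97.E3.Data
import Pool.Agent.H97.E3.Inf

/-!
# Real quadratic fields
-/

set_option autoImplicit false

namespace H97E3

open Polynomial NumberField

theorem QuadA_isInt (K : Type) [Field K] [NumberField K] (s m : ℤ) (β : K)
    (h : β ^ 2 = s * β - m) : IsIntegral ℤ β := by
  refine ⟨X ^ 2 + (C (-s) * X + C m), ?_, ?_⟩
  · apply monic_X_pow_add
    exact lt_of_le_of_lt degree_linear_le (by norm_num)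
  · rw [eval₂_add, eval₂_add, eval₂_mul, eval₂_pow, eval₂_X, eval₂_C, eval₂_C, h]
    simp

theorem QuadA_hom (K : Type) [Field K] [NumberField K] (hK : Module.finrank ℚ K = 2) {d : ℕ}
    (hd : Squarefree d) (h1 : 1 < d)
    (r : K) (hr : r ^ 2 = (d : K)) (s m w : ℤ) (hD : s ^ 2 - 4 * m = d * w ^ 2) (hw : w ≠ 0)
    (B : 𝓞 K) (hβ : 2 * (B : K) = s + w * r) {F : Type} [Field F] (b : F)
    (hb : b ^ 2 = s * b - m) (hDF : ((s ^ 2 - 4 * m : ℤ) : F) ≠ 0) :
    ∃ φ : 𝓞 K →+* F, φ B = b := by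
  have h2 : (2 : K) ≠ 0 := two_ne_zero
  have hDK : (s : K) ^ 2 - 4 * m = d * w ^ 2 := by
    exact_mod_cast congrArg (Int.cast : ℤ → K) hD
  have hBK : (B : K) ^ 2 = s * B - m := by
    have h4 : (4 : K) ≠ 0 := by norm_num
    apply mul_left_cancel₀ h4
    have : (4 : K) * (B : K) ^ 2 = (2 * (B : K)) ^ 2 := by ring
    rw [this]
    have h5 : (4 : K) * (s * B - m) = 2 * s * (2 * B) - 4 * m := by ring
    rw [h5, hβ]
    linear_combination (w : K) ^ 2 * hr - hDK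
  have hB : B ^ 2 = s * B - m := by
    apply RingOfIntegers.ext
    push_cast
    exact hBK
  apply H76ES.hom_of B s m (s ^ 2 - 4 * m) hB
  · intro z
    obtain ⟨x, y, hxy⟩ := H76ES.disc_mul K hK hd h1 r hr s m w hD (B : K) hβ B.isIntegral_coe
      (z : K) z.isIntegral_coe
    refine ⟨x, y, ?_⟩
    apply RingOfIntegers.ext
    push_cast at hxy ⊢
    exact hxy
  · intro x y h
    have hK' : (x : K) + y * B = 0 := by
      have := congrArg (fun t : 𝓞 K => (t : K)) h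
      push_cast at this
      exact this
    have h3 : ((2 * x + y * s : ℤ) : K) + ((y * w : ℤ) : K) * r = 0 := by
      push_cast
      linear_combination 2 * hK' - (y : K) * hβ
    by_cases hy : y = 0
    · subst hy
      refine ⟨?_, rfl⟩
      rw [Int.cast_zero, zero_mul, add_zero] at hK'
      exact_mod_cast hK'
    · exfalso
      have hyw : y * w ≠ 0 := mul_ne_zero hy hw
      apply H76ES.nonsq hd h1 (-(2 * x + y * s : ℤ) / (y * w : ℤ))
      have hywK : ((y * w : ℤ) : K) ≠ 0 := by exact_mod_cast hyw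
      have hr' : r = (((-(2 * x + y * s : ℤ) / (y * w : ℤ) : ℚ)) : K) := by
        have : (((-(2 * x + y * s : ℤ) / (y * w : ℤ) : ℚ)) : K)
            = - ((2 * x + y * s : ℤ) : K) / ((y * w : ℤ) : K) := by
          rw [Rat.cast_div, Rat.cast_neg, Rat.cast_intCast, Rat.cast_intCast]
        rw [this, eq_div_iff hywK]
        linear_combination h3
      have h6 : (((-(2 * x + y * s : ℤ) / (y * w : ℤ) : ℚ) ^ 2 : ℚ) : K) = ((d : ℚ) : K) := by
        rw [Rat.cast_pow, ← hr', hr, Rat.cast_natCast]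
      exact Rat.cast_injective h6
  · exact hb
  · exact hDF

theorem quad_main (i d w : ℕ) (hd : Squarefree d) (h1 : 1 < d) (hD : disc i = d * (w : ℤ) ^ 2)
    (K : Type) [Field K] [NumberField K] (hK : Module.finrank ℚ K = 2)
    (r : K) (hr : r ^ 2 = (d : K)) : Data K := by
  obtain ⟨x, hx⟩ : ∃ x, x = (pell (8 + 368 * i)).1 := ⟨_, rfl⟩
  obtain ⟨y, hy⟩ : ∃ y, y = (pell (8 + 368 * i)).2 := ⟨_, rfl⟩
  have hpos := disc_pos i
  have hnorm := pell_norm (8 + 368 * i)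
  have hx1 := (pell_pos (8 + 368 * i)).1
  have hmod31 := pell_mod31 i
  have hmod47 := pell_mod47 i
  obtain ⟨j, hj⟩ := pell_four (8 + 368 * i)
  rw [disc] at hD
  rw [← hx, ← hy] at hnorm hD hmod31 hmod47 hj
  rw [← hx] at hx1
  obtain ⟨s, hs⟩ : ∃ s : ℤ, s = 1 - y := ⟨_, rfl⟩
  obtain ⟨m, hm⟩ : ∃ m : ℤ, m = -j := ⟨_, rfl⟩
  have hm4 : 4 * m = -(x + 2 * y + 107) := by rw [hm, hj]; ring
  have hD' : s ^ 2 - 4 * m = d * (w : ℤ) ^ 2 := by
    rw [← hD, hs]
    linear_combination -hm4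
  have hw : (w : ℤ) ≠ 0 := by
    intro h0
    rw [disc, ← hx, ← hy, hD, h0] at hpos
    simp at hpos
  have hDK : (s : K) ^ 2 - 4 * m = d * (w : K) ^ 2 := by
    exact_mod_cast congrArg (Int.cast : ℤ → K) hD'
  obtain ⟨β, hβ⟩ : ∃ β : K, 2 * β = s + w * r := ⟨(s + w * r) / 2, by field_simp⟩
  have hβ2 : β ^ 2 = s * β - ((m : ℤ) : K) := by
    have h4 : (4 : K) ≠ 0 := by norm_num
    apply mul_left_cancel₀ h4
    have e1 : (4 : K) * β ^ 2 = (2 * β) ^ 2 := by ring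
    have e2 : (4 : K) * (s * β - (m : K)) = 2 * s * (2 * β) - 4 * (m : K) := by ring
    rw [e1, e2, hβ]
    linear_combination (w : K) ^ 2 * hr - hDK
  have hint : IsIntegral ℤ β := QuadA_isInt K s m β hβ2
  obtain ⟨k, hk⟩ : ∃ k : 𝓞 K, (k : K) = β := ⟨⟨β, hint⟩, rfl⟩
  have hk2 : k ^ 2 = (s : 𝓞 K) * k - (m : 𝓞 K) := by
    have hBB : (k : K) ^ 2 = s * (k : K) - (m : K) := by
      rw [hk]; exact hβ2
    apply RingOfIntegers.ext
    push_cast at hBB ⊢
    exact hBB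
  have hβ' : 2 * (k : K) = s + ((w : ℤ) : K) * r := by
    rw [hk, hβ]; push_cast; ring
  have hunit : (4 * (y : 𝓞 K) ^ 2 + x + 2 * y * (2 * k - 1)) * (4 * k ^ 2 - 4 * k - 107) = 1 := by
    have f1 : (s : 𝓞 K) = 1 - y := by exact_mod_cast congrArg (Int.cast : ℤ → 𝓞 K) hs
    have f2 : 4 * (m : 𝓞 K) = -(x + 2 * y + 107) := by
      exact_mod_cast congrArg (Int.cast : ℤ → 𝓞 K) hm4
    have f3 : (x : 𝓞 K) ^ 2 - 432 * y ^ 2 = 1 := by
      exact_mod_cast congrArg (Int.cast : ℤ → 𝓞 K) hnorm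
    have f4 : 4 * k ^ 2 - 4 * k - 107 = (x : 𝓞 K) - 2 * y * (2 * k - 1) := by
      linear_combination 4 * hk2 + 4 * k * f1 - f2
    have f5 : (2 * k - 1) ^ 2 = 108 + (x : 𝓞 K) - 2 * y * (2 * k - 1) := by
      linear_combination f4
    rw [f4]
    linear_combination f3 - 4 * (y : 𝓞 K) ^ 2 * f5
  have s31 : (s : ZMod 31) = 1 := by
    obtain ⟨t, ht⟩ := hmod31.2
    rw [hs, ht]
    push_cast
    have e : (31 : ZMod 31) = 0 := by decide
    rw [e, zero_mul, sub_zero]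
  have m31 : (m : ZMod 31) = 20 := by
    obtain ⟨t, ht⟩ := hmod31.2
    obtain ⟨t', ht'⟩ := hmod31.1
    have e1 : 4 * (m : ZMod 31) = 18 := by
      have : 4 * m = 18 + 31 * (-t' - 2 * t - 5) := by linarith
      have h := congrArg (Int.cast : ℤ → ZMod 31) this
      push_cast at h
      have e : (31 : ZMod 31) = 0 := by decide
      rw [e, zero_mul, add_zero] at h
      exact h
    have e2 : (m : ZMod 31) = 8 * (4 * (m : ZMod 31)) := by
      have e : (8 * 4 : ZMod 31) = 1 := by decide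
      rw [← mul_assoc, e, one_mul]
    rw [e2, e1]
    decide
  have s47 : (s : ZMod 47) = 32 := by
    obtain ⟨t, ht⟩ := hmod47.2
    have : s = 32 + 47 * (-t - 1) := by linarith
    rw [this]
    push_cast
    have e : (47 : ZMod 47) = 0 := by decide
    rw [e, zero_mul, add_zero]
  have m47 : (m : ZMod 47) = 34 := by
    obtain ⟨t, ht⟩ := hmod47.2
    obtain ⟨t', ht'⟩ := hmod47.1
    have e1 : 4 * (m : ZMod 47) = 42 := by
      have : 4 * m = 42 + 47 * (-t' - 2 * t - 4) := by linarith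
      have h := congrArg (Int.cast : ℤ → ZMod 47) this
      push_cast at h
      have e : (47 : ZMod 47) = 0 := by decide
      rw [e, zero_mul, add_zero] at h
      exact h
    have e2 : (m : ZMod 47) = 12 * (4 * (m : ZMod 47)) := by
      have e : (12 * 4 : ZMod 47) = 1 := by decide
      rw [← mul_assoc, e, one_mul]
    rw [e2, e1]
    decide
  have hD31 : ((s ^ 2 - 4 * m : ℤ) : ZMod 31) ≠ 0 := by
    push_cast
    rw [s31, m31]
    decide
  have hD47 : ((s ^ 2 - 4 * m : ℤ) : ZMod 47) ≠ 0 := by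
    push_cast
    rw [s47, m47]
    decide
  have r31 : (7 : ZMod 31) ^ 2 = s * 7 - m := by rw [s31, m31]; decide
  have r47 : (7 : ZMod 47) ^ 2 = s * 7 - m := by rw [s47, m47]; decide
  have r47' : (25 : ZMod 47) ^ 2 = s * 25 - m := by rw [s47, m47]; decide
  have p31 : Fact (Nat.Prime 31) := ⟨by norm_num⟩
  have p47 : Fact (Nat.Prime 47) := ⟨by norm_num⟩
  refine ⟨k, IsUnit.of_mul_eq_one _ (by rw [mul_comm]; exact hunit), ?_,
    QuadA_hom K hK hd h1 r hr s m w hD' hw k hβ' (F := ZMod 31) 7 r31 hD31,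
    QuadA_hom K hK hd h1 r hr s m w hD' hw k hβ' (F := ZMod 47) 7 r47 hD47,
    QuadA_hom K hK hd h1 r hr s m w hD' hw k hβ' (F := ZMod 47) 25 r47' hD47⟩
  intro τ
  obtain ⟨z, hz⟩ : ∃ z : ℝ, z = 2 * τ k - 1 := ⟨_, rfl⟩
  have g1 : (s : ℝ) = 1 - y := by exact_mod_cast congrArg (Int.cast : ℤ → ℝ) hs
  have g2 : 4 * (m : ℝ) = -(x + 2 * y + 107) := by
    exact_mod_cast congrArg (Int.cast : ℤ → ℝ) hm4
  have g3 : (x : ℝ) ^ 2 - 432 * y ^ 2 = 1 := by
    exact_mod_cast congrArg (Int.cast : ℤ → ℝ) hnorm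
  have g4 : (τ k) ^ 2 = s * τ k - m := by
    have h := congrArg τ hβ2
    rw [← hk, map_pow, map_sub, map_mul, map_intCast, map_intCast] at h
    exact h
  have g5 : z ^ 2 = 108 + x - 2 * y * z := by
    rw [hz]
    linear_combination 4 * g4 + 4 * τ k * g1 - g2
  have g6 : (1 : ℝ) ≤ x := by exact_mod_cast hx1
  have g7 : 4 * (τ k) ^ 2 - 4 * τ k - 107 = z ^ 2 - 108 := by rw [hz]; ring
  rw [g7]
  by_contra hcon
  push Not at hcon
  have g8 : x ≤ 2 * y * z := by linarith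
  have g9 : (2 * y * z) ^ 2 ≤ (x : ℝ) ^ 2 - 1 := by
    have : (2 * y * z) ^ 2 = 4 * (y : ℝ) ^ 2 * z ^ 2 := by ring
    rw [this]
    nlinarith [sq_nonneg (y : ℝ)]
  nlinarith

end H97E3
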