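import Mathlib
import Pool.Agent.H76.EN.Fld
import Pool.Agent.H76.EN.Real
import Pool.Agent.H76.EN.Ram
import Pool.Agent.H97.E3.QuadA

/-!
# Infinitely many real quadratic fields
-/

set_option autoImplicit false

namespace H97E3

open Polynomial NumberField
open H76EN (exists_field totallyReal_of dvd_discr)

theorem Quad_irr (a : ℕ) (ha : Squarefree a) (h1 : 1 < a) :
    Irreducible ((X ^ 2 - C (a : ℤ) : ℤ[X]).map (Int.castRingHom ℚ)) := by
  have hmon : (X ^ 2 - C (a : ℤ) : ℤ[X]).Monic := monic_X_pow_sub_C _ (by norm_num)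
  have hdeg : (X ^ 2 - C (a : ℤ) : ℤ[X]).natDegree = 2 := natDegree_X_pow_sub_C
  apply irreducible_of_degree_le_three_of_not_isRoot
  · rw [hmon.natDegree_map, hdeg]
    simp
  · intro x hx
    rw [IsRoot.def, Polynomial.map_sub, Polynomial.map_pow, map_X, map_C, eval_sub, eval_pow,
      eval_X, eval_C] at hx
    have hsq : IsSquare ((a : ℕ) : ℚ) := by
      refine ⟨x, ?_⟩
      have : (Int.castRingHom ℚ) (a : ℤ) = (a : ℚ) := by simp
      rw [this] at hx
      linear_combination -hx
    rw [Rat.isSquare_natCast_iff] at hsq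
    obtain ⟨b, hb⟩ := hsq
    have h2 := ha b ⟨1, by rw [hb]; ring⟩
    rw [Nat.isUnit_iff] at h2
    rw [h2] at hb
    omega

theorem quad (B : ℕ) :
    ∃ (K : Type) (_ : Field K) (_ : NumberField K),
      Module.finrank ℚ K = 2 ∧ IsTotallyReal K ∧
      (∀ L : IntermediateField ℚ K, L = ⊥ ∨ L = ⊤) ∧ (B : ℤ) < |discr K| ∧ Data K := by
  obtain ⟨i, a, b, hB, ha, hD⟩ := unbounded (max B 1)
  have h1 : 1 < a := lt_of_le_of_lt (le_max_right B 1) hB
  have hBa : B < a := lt_of_le_of_lt (le_max_left B 1) hB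
  have hmon : (X ^ 2 - C (a : ℤ) : ℤ[X]).Monic := monic_X_pow_sub_C _ (by norm_num)
  have hdeg : (X ^ 2 - C (a : ℤ) : ℤ[X]).natDegree = 2 := natDegree_X_pow_sub_C
  obtain ⟨K, hK1, hK2, pb, hf⟩ := exists_field _ hmon (Quad_irr a ha h1)
  have hfin : Module.finrank ℚ K = 2 := by
    rw [pb.finrank, ← pb.natDegree_minpoly, hf, hmon.natDegree_map, hdeg]
  have hroot : aeval pb.gen (X ^ 2 - C (a : ℤ) : ℤ[X]) = 0 := by
    have h1 : aeval pb.gen ((X ^ 2 - C (a : ℤ) : ℤ[X]).map (Int.castRingHom ℚ)) = 0 := by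
      rw [← hf]; exact minpoly.aeval _ _
    have := aeval_map_algebraMap (R := ℤ) ℚ pb.gen (X ^ 2 - C (a : ℤ) : ℤ[X])
    rw [← this]
    exact h1
  have hr : pb.gen ^ 2 = (a : K) := by
    rw [map_sub, map_pow, aeval_X, aeval_C] at hroot
    have : algebraMap ℤ K (a : ℤ) = (a : K) := by simp
    rw [this] at hroot
    linear_combination hroot
  have hint : IsIntegral ℤ pb.gen := ⟨_, hmon, hroot⟩
  obtain ⟨β, hβ⟩ : ∃ β : 𝓞 K, (β : K) = pb.gen := ⟨⟨pb.gen, hint⟩, rfl⟩
  refine ⟨K, hK1, hK2, hfin, ?_, ?_, ?_, quad_main i a b ha h1 hD K hfin pb.gen hr⟩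
  · apply totallyReal_of K pb _ hf
    intro w hw
    rw [map_sub, map_pow, aeval_X, aeval_C] at hw
    have e1 : algebraMap ℤ ℂ (a : ℤ) = ((Real.sqrt a : ℝ) : ℂ) ^ 2 := by
      have : algebraMap ℤ ℂ (a : ℤ) = ((a : ℝ) : ℂ) := by simp
      rw [this, ← Complex.ofReal_pow, Real.sq_sqrt (Nat.cast_nonneg a)]
    rw [e1] at hw
    have h3 : (w - ((Real.sqrt a : ℝ) : ℂ)) * (w + ((Real.sqrt a : ℝ) : ℂ)) = 0 := by
      linear_combination hw
    rcases mul_eq_zero.1 h3 with h | h
    · exact ⟨Real.sqrt a, by linear_combination h⟩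
    · exact ⟨-Real.sqrt a, by push_cast; linear_combination h⟩
  · intro L
    have h3 := Module.finrank_mul_finrank ℚ L K
    rw [hfin] at h3
    have h4 : Module.finrank ℚ L ∣ 2 := ⟨_, h3.symm⟩
    rcases (Nat.dvd_prime Nat.prime_two).1 h4 with h | h
    · left
      exact IntermediateField.finrank_eq_one_iff.1 h
    · right
      rw [h] at h3
      exact IntermediateField.finrank_eq_one_iff_eq_top.1 (by omega)
  · have hdiv : (a : ℤ) ∣ discr K := by
      have hnat : a ∣ (discr K).natAbs := by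
        rw [← Nat.prod_primeFactors_of_squarefree ha]
        apply Finset.prod_primes_dvd
        · intro q hq
          exact (Nat.prime_of_mem_primeFactors hq).prime
        · intro q hq
          have hqp := Nat.prime_of_mem_primeFactors hq
          have hqa := Nat.dvd_of_mem_primeFactors hq
          apply Int.natCast_dvd.1
          apply dvd_discr K pb _ hf β hβ q hqp
          · simp only [coeff_sub, coeff_X_pow, coeff_C_zero]
            norm_num
            exact_mod_cast hqa
          · simp only [coeff_sub, coeff_X_pow, coeff_C_zero]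
            norm_num
            intro h
            have h5 : q * q ∣ a := by
              have : (q : ℤ) ^ 2 = ((q * q : ℕ) : ℤ) := by push_cast; ring
              rw [this] at h
              exact_mod_cast h
            have h6 := ha q h5
            rw [Nat.isUnit_iff] at h6
            exact hqp.one_lt.ne' h6
          · simp [coeff_X_pow]
      exact Int.natCast_dvd.2 hnat
    have h0 : discr K ≠ 0 := discr_ne_zero K
    have h2 : (a : ℤ) ≤ |discr K| := by
      apply Int.le_of_dvd (abs_pos.2 h0)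
      exact (dvd_abs _ _).2 hdiv
    have h3 : (B : ℤ) < a := by exact_mod_cast hBa
    linarith

end H97E3
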