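import Mathlib
import Pool.Agent.H97.E3.Quad
import Pool.Agent.H97.E3.Main
import Pool.Agent.H97.E3.Good

/-!
# All even degrees
-/

set_option autoImplicit false

namespace H97E3

open Polynomial NumberField

theorem all_even (n : ℕ) (hn : Even n) (hn0 : 0 < n) (B : ℕ) :
    ∃ (F : Type) (_ : Field F) (_ : NumberField F),
      Module.finrank ℚ F = n ∧ IsTotallyReal F ∧
      (∀ L : IntermediateField ℚ F, L = ⊥ ∨ L = ⊤) ∧ (B : ℤ) < |discr F| ∧ Good F := by
  obtain ⟨m, hm⟩ := hn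
  rcases Nat.lt_or_ge m 2 with h | h
  · have h2 : n = 2 := by omega
    rw [h2]
    obtain ⟨K, h1, h2, h3, h4, h5, h6, h7⟩ := quad B
    exact ⟨K, h1, h2, h3, h4, h5, h6, good_of_data K h7⟩
  · obtain ⟨K, h1, h2, h3, h4, h5, h6, h7⟩ := main (m - 1) (by omega) B
    exact ⟨K, h1, h2, by rw [h3]; omega, h4, h5, h6, good_of_data K h7⟩

end H97E3
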